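import Mathlib

/-!
Multitape oracle Turing machines, the classes `P^A` and `NL_*^A`.

Words are lists of Booleans. A program is a finite list of instructions; states and work tape
symbols are natural numbers (only finitely many occur in a program), `0` is the blank symbol.
A machine has a read-only input tape, a fixed number of two-way infinite work tapes and a
write-only one-way oracle tape.
-/

namespace Pool.Agent.MP_b8a592_lc

/-- An instruction. It applies when the machine is in state `st`, scans `inp` on the input tape and
the symbols `rd` on the work tapes. The work heads write the symbols `wr` and move according to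
`mvW`, the input head moves according to `mvI` (`none`: stay, `some false`: left, `some true`:
right). The field `orc` acts on the oracle tape: `none` does nothing, `some (some b)` appends
the bit `b`, and `some none` asks the query written there and erases the oracle tape. The next state is
`yes`, except that it is `no` after a query answered negatively. -/
structure Instr where
  st : ℕ
  inp : ℕ
  rd : List ℕ
  wr : List ℕ
  mvI : Option Bool
  mvW : List (Option Bool)
  orc : Option (Option Bool)
  yes : ℕ
  no : ℕ

/-- A machine: the number of work tapes, the initial state, the accepting state and a finite list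
of instructions. -/
structure Prog where
  tapes : ℕ
  start : ℕ
  acc : ℕ
  instrs : List Instr

/-- A configuration: the state, the position of the input head, the work tapes and the contents of
the oracle tape. A work tape is a pair of lists: the cells to the left of the head (nearest first)
and the cells from the head to the right. Cells not in the lists are blank. -/
structure Cfg where
  st : ℕ
  pos : ℕ
  work : List (List ℕ × List ℕ)
  qry : List Bool

/-- The symbol at position `p` of the input tape holding `x`: `0` is the left end marker (at
position `0`), `1` the right end marker (at position `|x| + 1`), `2` and `3` stand for the bits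
`false` and `true`. -/
def scan (x : List Bool) (p : ℕ) : ℕ :=
  if p = 0 then 0 else (x[p - 1]?.map (fun b => b.toNat + 2)).getD 1

/-- The symbol under a work head. -/
def hd (t : List ℕ × List ℕ) : ℕ := t.2.headD 0

/-- Write the symbol `a` on a work tape and move the head. -/
def upd (t : List ℕ × List ℕ) (a : ℕ) : Option Bool → List ℕ × List ℕ
  | none => (t.1, a :: t.2.tail)
  | some false => (t.1.tail, t.1.headD 0 :: a :: t.2.tail)
  | some true => (a :: t.1, t.2.tail)

/-- Move the input head; it stays between the end markers. -/
def mvPos (n p : ℕ) : Option Bool → ℕ
  | none => p
  | some false => p - 1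
  | some true => min (p + 1) (n + 1)

/-- The instruction `i` applies to the configuration `C`. -/
def Applies (i : Instr) (x : List Bool) (C : Cfg) : Prop :=
  i.st = C.st ∧ i.inp = scan x C.pos ∧ i.rd = C.work.map hd

/-- The result of the instruction `i`, where `ans` is the oracle's answer to the query on the
oracle tape (used only if `i` asks a query). -/
def next (i : Instr) (x : List Bool) (C : Cfg) (ans : Bool) : Cfg where
  st := if i.orc = some none ∧ ans = false then i.no else i.yes
  pos := mvPos x.length C.pos i.mvI
  work := (List.range C.work.length).map
    (fun k => upd (C.work.getD k ([], [])) (i.wr.getD k 0) (i.mvW.getD k none))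
  qry := match i.orc with
    | none => C.qry
    | some none => []
    | some (some b) => C.qry ++ [b]

open Classical in
/-- One computation step of the program `M` with oracle `A` on input `x`. -/
def Step (A : Set (List Bool)) (M : Prog) (x : List Bool) (C C' : Cfg) : Prop :=
  ∃ i ∈ M.instrs, Applies i x C ∧ C' = next i x C (decide (C.qry ∈ A))

/-- The initial configuration. -/
def init (M : Prog) : Cfg := ⟨M.start, 0, List.replicate M.tapes ([], []), []⟩

/-- No instruction applies to `C`. -/
def Halted (M : Prog) (x : List Bool) (C : Cfg) : Prop := ∀ i ∈ M.instrs, ¬ Applies i x C

/-- `Steps A M x t C C'`: the configuration `C'` is reached from `C` in `t` steps. -/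
def Steps (A : Set (List Bool)) (M : Prog) (x : List Bool) : ℕ → Cfg → Cfg → Prop
  | 0, C, C' => C = C'
  | t + 1, C, C' => ∃ D, Step A M x C D ∧ Steps A M x t D C'

/-- A program is deterministic if at most one instruction applies in each situation. -/
def Deterministic (M : Prog) : Prop :=
  ∀ i ∈ M.instrs, ∀ j ∈ M.instrs, i.st = j.st → i.inp = j.inp → i.rd = j.rd → i = j

/-- The class `P^A`: languages accepted by deterministic machines with oracle `A` in polynomial
time. -/
def PClass (A : Set (List Bool)) : Set (Set (List Bool)) :=
  {L | ∃ M : Prog, Deterministic M ∧ ∃ c : ℕ, ∀ x : List Bool, ∃ t ≤ x.length ^ c + c, ∃ C : Cfg,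
    Steps A M x t (init M) C ∧ Halted M x C ∧ (x ∈ L ↔ C.st = M.acc)}

/-- The number of work tape cells in use. -/
def cells (C : Cfg) : ℕ := (C.work.map (fun t => t.1.length + t.2.length)).sum

/-- The class `NL_*^A`: languages accepted by nondeterministic machines with oracle `A` all of
whose computation paths halt and use `O(log n)` cells of the work tapes; the length of the queries
is not bounded. A word is accepted if some path halts in the accepting state. -/
def NLClass (A : Set (List Bool)) : Set (Set (List Bool)) :=
  {L | ∃ M : Prog,
    (∀ x : List Bool, ¬ ∃ f : ℕ → Cfg, f 0 = init M ∧ ∀ n, Step A M x (f n) (f (n + 1))) ∧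
    (∃ c : ℕ, ∀ (x : List Bool) (t : ℕ) (C : Cfg), Steps A M x t (init M) C →
      cells C ≤ c * (Nat.log 2 x.length + 1)) ∧
    ∀ x : List Bool, x ∈ L ↔ ∃ (t : ℕ) (C : Cfg), Steps A M x t (init M) C ∧ Halted M x C ∧
      C.st = M.acc}

end Pool.Agent.MP_b8a592_lc
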