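import Mathlib
import Pool.Agent.Lib.MP_b8a592_lc.Defs
import Pool.Agent.Lib.MP_b653e9_lc.Deep

/-!
Computable simulation of deterministic oracle machines.
-/

namespace Pool.Agent.MP_b8a592_lc

open Encodable
open Pool.Agent.MP_b653e9_lc (computable_eq computable_le computable_lt computable_add
  computable_sub computable_mul computable_pow computable_getD computable_append
  computable_length computable_ite computable_rangeMap computable_min find1 find1_spec
  computable_find1)

/-- instructions as tuples -/
def instrEquiv : Instr ≃ (ℕ × ℕ) × (List ℕ × List ℕ) × (Option Bool × List (Option Bool)) ×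
    (Option (Option Bool) × ℕ × ℕ) where
  toFun i := ((i.st, i.inp), (i.rd, i.wr), (i.mvI, i.mvW), (i.orc, i.yes, i.no))
  invFun t := ⟨t.1.1, t.1.2, t.2.1.1, t.2.1.2, t.2.2.1.1, t.2.2.1.2, t.2.2.2.1, t.2.2.2.2.1,
    t.2.2.2.2.2⟩
  left_inv _ := rfl
  right_inv _ := rfl

instance : Primcodable Instr := Primcodable.ofEquiv _ instrEquiv

/-- programs as tuples -/
def progEquiv : Prog ≃ (ℕ × ℕ × ℕ) × List Instr where
  toFun M := ((M.tapes, M.start, M.acc), M.instrs)
  invFun t := ⟨t.1.1, t.1.2.1, t.1.2.2, t.2⟩
  left_inv _ := rfl
  right_inv _ := rfl

instance : Primcodable Prog := Primcodable.ofEquiv _ progEquiv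

/-- configurations as tuples -/
def cfgEquiv : Cfg ≃ (ℕ × ℕ) × List (List ℕ × List ℕ) × List Bool where
  toFun C := ((C.st, C.pos), C.work, C.qry)
  invFun t := ⟨t.1.1, t.1.2, t.2.1, t.2.2⟩
  left_inv _ := rfl
  right_inv _ := rfl

instance : Primcodable Cfg := Primcodable.ofEquiv _ cfgEquiv

theorem computable_instrEquiv : Computable instrEquiv := Primrec.of_equiv.to_comp

theorem computable_progEquiv : Computable progEquiv := Primrec.of_equiv.to_comp

theorem computable_cfgEquiv : Computable cfgEquiv := Primrec.of_equiv.to_comp

theorem computable_cfgSymm : Computable cfgEquiv.symm := Primrec.of_equiv_symm.to_comp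

theorem computable_ist : Computable Instr.st := by
  have h0 := computable_instrEquiv
  have h1 : Computable (fun i : Instr => (instrEquiv i).1) := Computable.fst.comp h0
  have h2 : Computable (fun i : Instr => (instrEquiv i).1.1) := Computable.fst.comp h1
  exact h2.of_eq (fun _ => rfl)

theorem computable_iinp : Computable Instr.inp := by
  have h0 := computable_instrEquiv
  have h1 : Computable (fun i : Instr => (instrEquiv i).1) := Computable.fst.comp h0
  have h2 : Computable (fun i : Instr => (instrEquiv i).1.2) := Computable.snd.comp h1
  exact h2.of_eq (fun _ => rfl)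

theorem computable_ird : Computable Instr.rd := by
  have h0 := computable_instrEquiv
  have h1 : Computable (fun i : Instr => (instrEquiv i).2) := Computable.snd.comp h0
  have h2 : Computable (fun i : Instr => (instrEquiv i).2.1) := Computable.fst.comp h1
  have h3 : Computable (fun i : Instr => (instrEquiv i).2.1.1) := Computable.fst.comp h2
  exact h3.of_eq (fun _ => rfl)

theorem computable_iwr : Computable Instr.wr := by
  have h0 := computable_instrEquiv
  have h1 : Computable (fun i : Instr => (instrEquiv i).2) := Computable.snd.comp h0
  have h2 : Computable (fun i : Instr => (instrEquiv i).2.1) := Computable.fst.comp h1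
  have h3 : Computable (fun i : Instr => (instrEquiv i).2.1.2) := Computable.snd.comp h2
  exact h3.of_eq (fun _ => rfl)

theorem computable_imvI : Computable Instr.mvI := by
  have h0 := computable_instrEquiv
  have h1 : Computable (fun i : Instr => (instrEquiv i).2) := Computable.snd.comp h0
  have h2 : Computable (fun i : Instr => (instrEquiv i).2.2) := Computable.snd.comp h1
  have h3 : Computable (fun i : Instr => (instrEquiv i).2.2.1) := Computable.fst.comp h2
  have h4 : Computable (fun i : Instr => (instrEquiv i).2.2.1.1) := Computable.fst.comp h3
  exact h4.of_eq (fun _ => rfl)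

theorem computable_imvW : Computable Instr.mvW := by
  have h0 := computable_instrEquiv
  have h1 : Computable (fun i : Instr => (instrEquiv i).2) := Computable.snd.comp h0
  have h2 : Computable (fun i : Instr => (instrEquiv i).2.2) := Computable.snd.comp h1
  have h3 : Computable (fun i : Instr => (instrEquiv i).2.2.1) := Computable.fst.comp h2
  have h4 : Computable (fun i : Instr => (instrEquiv i).2.2.1.2) := Computable.snd.comp h3
  exact h4.of_eq (fun _ => rfl)

theorem computable_iorc : Computable Instr.orc := by
  have h0 := computable_instrEquiv
  have h1 : Computable (fun i : Instr => (instrEquiv i).2) := Computable.snd.comp h0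
  have h2 : Computable (fun i : Instr => (instrEquiv i).2.2) := Computable.snd.comp h1
  have h3 : Computable (fun i : Instr => (instrEquiv i).2.2.2) := Computable.snd.comp h2
  have h4 : Computable (fun i : Instr => (instrEquiv i).2.2.2.1) := Computable.fst.comp h3
  exact h4.of_eq (fun _ => rfl)

theorem computable_iyes : Computable Instr.yes := by
  have h0 := computable_instrEquiv
  have h1 : Computable (fun i : Instr => (instrEquiv i).2) := Computable.snd.comp h0
  have h2 : Computable (fun i : Instr => (instrEquiv i).2.2) := Computable.snd.comp h1
  have h3 : Computable (fun i : Instr => (instrEquiv i).2.2.2) := Computable.snd.comp h2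
  have h4 : Computable (fun i : Instr => (instrEquiv i).2.2.2.2) := Computable.snd.comp h3
  have h5 : Computable (fun i : Instr => (instrEquiv i).2.2.2.2.1) := Computable.fst.comp h4
  exact h5.of_eq (fun _ => rfl)

theorem computable_ino : Computable Instr.no := by
  have h0 := computable_instrEquiv
  have h1 : Computable (fun i : Instr => (instrEquiv i).2) := Computable.snd.comp h0
  have h2 : Computable (fun i : Instr => (instrEquiv i).2.2) := Computable.snd.comp h1
  have h3 : Computable (fun i : Instr => (instrEquiv i).2.2.2) := Computable.snd.comp h2
  have h4 : Computable (fun i : Instr => (instrEquiv i).2.2.2.2) := Computable.snd.comp h3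
  have h5 : Computable (fun i : Instr => (instrEquiv i).2.2.2.2.2) := Computable.snd.comp h4
  exact h5.of_eq (fun _ => rfl)

theorem computable_ptapes : Computable Prog.tapes := by
  have h0 := computable_progEquiv
  have h1 : Computable (fun i : Prog => (progEquiv i).1) := Computable.fst.comp h0
  have h2 : Computable (fun i : Prog => (progEquiv i).1.1) := Computable.fst.comp h1
  exact h2.of_eq (fun _ => rfl)

theorem computable_pstart : Computable Prog.start := by
  have h0 := computable_progEquiv
  have h1 : Computable (fun i : Prog => (progEquiv i).1) := Computable.fst.comp h0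
  have h2 : Computable (fun i : Prog => (progEquiv i).1.2) := Computable.snd.comp h1
  have h3 : Computable (fun i : Prog => (progEquiv i).1.2.1) := Computable.fst.comp h2
  exact h3.of_eq (fun _ => rfl)

theorem computable_pacc : Computable Prog.acc := by
  have h0 := computable_progEquiv
  have h1 : Computable (fun i : Prog => (progEquiv i).1) := Computable.fst.comp h0
  have h2 : Computable (fun i : Prog => (progEquiv i).1.2) := Computable.snd.comp h1
  have h3 : Computable (fun i : Prog => (progEquiv i).1.2.2) := Computable.snd.comp h2
  exact h3.of_eq (fun _ => rfl)

theorem computable_pinstrs : Computable Prog.instrs := by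
  have h0 := computable_progEquiv
  have h1 : Computable (fun i : Prog => (progEquiv i).2) := Computable.snd.comp h0
  exact h1.of_eq (fun _ => rfl)

theorem computable_cst : Computable Cfg.st := by
  have h0 := computable_cfgEquiv
  have h1 : Computable (fun i : Cfg => (cfgEquiv i).1) := Computable.fst.comp h0
  have h2 : Computable (fun i : Cfg => (cfgEquiv i).1.1) := Computable.fst.comp h1
  exact h2.of_eq (fun _ => rfl)

theorem computable_cpos : Computable Cfg.pos := by
  have h0 := computable_cfgEquiv
  have h1 : Computable (fun i : Cfg => (cfgEquiv i).1) := Computable.fst.comp h0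
  have h2 : Computable (fun i : Cfg => (cfgEquiv i).1.2) := Computable.snd.comp h1
  exact h2.of_eq (fun _ => rfl)

theorem computable_cwork : Computable Cfg.work := by
  have h0 := computable_cfgEquiv
  have h1 : Computable (fun i : Cfg => (cfgEquiv i).2) := Computable.snd.comp h0
  have h2 : Computable (fun i : Cfg => (cfgEquiv i).2.1) := Computable.fst.comp h1
  exact h2.of_eq (fun _ => rfl)

theorem computable_cqry : Computable Cfg.qry := by
  have h0 := computable_cfgEquiv
  have h1 : Computable (fun i : Cfg => (cfgEquiv i).2) := Computable.snd.comp h0
  have h2 : Computable (fun i : Cfg => (cfgEquiv i).2.2) := Computable.snd.comp h1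
  exact h2.of_eq (fun _ => rfl)

section
variable {α : Type*} [Primcodable α]

theorem computable_mkCfg {s p : α → ℕ} {w : α → List (List ℕ × List ℕ)} {q : α → List Bool}
    (hs : Computable s) (hp : Computable p) (hw : Computable w) (hq : Computable q) :
    Computable (fun a => (⟨s a, p a, w a, q a⟩ : Cfg)) := by
  have h1 : Computable (fun a => ((s a, p a), (w a, q a))) :=
    Computable.pair (Computable.pair hs hp) (Computable.pair hw hq)
  have h2 : Computable (fun a => cfgEquiv.symm ((s a, p a), (w a, q a))) :=
    computable_cfgSymm.comp h1
  exact h2.of_eq (fun _ => rfl)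

theorem computable_toNat : Computable (fun b : Bool => b.toNat) :=
  (Primrec.cond Primrec.id (Primrec.const 1) (Primrec.const 0)).to_comp.of_eq
    (fun b => by cases b <;> rfl)

theorem computable_scan {x : α → List Bool} {p : α → ℕ} (hx : Computable x) (hp : Computable p) :
    Computable (fun a => scan (x a) (p a)) := by
  have h1 : Computable (fun a => (x a)[p a - 1]?) :=
    Primrec.list_getElem?.to_comp.comp hx (computable_sub hp (Computable.const 1))
  have h2 : Computable (fun a => (x a)[p a - 1]?.map (fun b => b.toNat + 2)) := by
    refine Computable.option_map (g := fun _ (b : Bool) => b.toNat + 2) h1 ?_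
    exact computable_add (computable_toNat.comp Computable.snd) (Computable.const 2)
  have h3 : Computable (fun a => ((x a)[p a - 1]?.map (fun b => b.toNat + 2)).getD 1) :=
    Computable.option_getD h2 (Computable.const 1)
  have h4 : Computable (fun a => decide (p a = 0)) := computable_eq hp (Computable.const 0)
  refine (computable_ite h4 (Computable.const 0) h3).of_eq (fun a => ?_)
  unfold scan
  by_cases h : p a = 0 <;> simp [h]

theorem computable_headD {l : α → List ℕ} (hl : Computable l) :
    Computable (fun a => (l a).headD 0) := by
  refine (computable_getD 0 hl (Computable.const 0)).of_eq (fun a => ?_)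
  cases l a <;> rfl

theorem computable_tail {l : α → List ℕ} (hl : Computable l) :
    Computable (fun a => (l a).tail) := Primrec.list_tail.to_comp.comp hl

theorem computable_hd : Computable hd := computable_headD Computable.snd

theorem computable_upd {t : α → List ℕ × List ℕ} {s : α → ℕ} {m : α → Option Bool}
    (ht : Computable t) (hs : Computable s) (hm : Computable m) :
    Computable (fun a => upd (t a) (s a) (m a)) := by
  have hL : Computable (fun a => (t a).1) := Computable.fst.comp ht
  have hR : Computable (fun a => (t a).2) := Computable.snd.comp ht
  have hRt := computable_tail hR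
  have hLt := computable_tail hL
  have h0 : Computable (fun a => ((t a).1, s a :: (t a).2.tail)) :=
    Computable.pair hL (Computable.list_cons.comp hs hRt)
  have h1 : Computable (fun a => ((t a).1.tail, (t a).1.headD 0 :: s a :: (t a).2.tail)) :=
    Computable.pair hLt (Computable.list_cons.comp (computable_headD hL)
      (Computable.list_cons.comp hs hRt))
  have h2 : Computable (fun a => (s a :: (t a).1, (t a).2.tail)) :=
    Computable.pair (Computable.list_cons.comp hs hL) hRt
  have c1 : Computable (fun a => decide (m a = none)) := computable_eq hm (Computable.const none)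
  have c2 : Computable (fun a => decide (m a = some false)) :=
    computable_eq hm (Computable.const (some false))
  refine (computable_ite c1 h0 (computable_ite c2 h1 h2)).of_eq (fun a => ?_)
  rcases h : m a with _ | b
  · simp [upd]
  · cases b <;> simp [upd]

theorem computable_mvPos {n p : α → ℕ} {m : α → Option Bool} (hn : Computable n)
    (hp : Computable p) (hm : Computable m) : Computable (fun a => mvPos (n a) (p a) (m a)) := by
  have c1 : Computable (fun a => decide (m a = none)) := computable_eq hm (Computable.const none)
  have c2 : Computable (fun a => decide (m a = some false)) :=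
    computable_eq hm (Computable.const (some false))
  have h1 : Computable (fun a => p a - 1) := computable_sub hp (Computable.const 1)
  have h2 : Computable (fun a => min (p a + 1) (n a + 1)) :=
    computable_min (computable_add hp (Computable.const 1)) (computable_add hn (Computable.const 1))
  refine (computable_ite c1 hp (computable_ite c2 h1 h2)).of_eq (fun a => ?_)
  rcases h : m a with _ | b
  · simp [mvPos]
  · cases b <;> simp [mvPos]

end

/-- decision of `Applies` -/
def appB (i : Instr) (x : List Bool) (C : Cfg) : Bool :=
  decide (i.st = C.st) && (decide (i.inp = scan x C.pos) && decide (i.rd = C.work.map hd))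

theorem appB_iff (i : Instr) (x : List Bool) (C : Cfg) : appB i x C = true ↔ Applies i x C := by
  unfold appB Applies
  simp only [Bool.and_eq_true, decide_eq_true_eq]

theorem computable_appB :
    Computable (fun z : (List Bool × Cfg) × Instr => appB z.2 z.1.1 z.1.2) := by
  have hi : Computable (fun z : (List Bool × Cfg) × Instr => z.2) := Computable.snd
  have hx : Computable (fun z : (List Bool × Cfg) × Instr => z.1.1) :=
    Computable.fst.comp Computable.fst
  have hC : Computable (fun z : (List Bool × Cfg) × Instr => z.1.2) :=
    Computable.snd.comp Computable.fst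
  have h1 : Computable (fun z : (List Bool × Cfg) × Instr => decide (z.2.st = z.1.2.st)) :=
    computable_eq (computable_ist.comp hi) (computable_cst.comp hC)
  have h2 : Computable (fun z : (List Bool × Cfg) × Instr =>
      decide (z.2.inp = scan z.1.1 z.1.2.pos)) :=
    computable_eq (computable_iinp.comp hi) (computable_scan hx (computable_cpos.comp hC))
  have h3 : Computable (fun z : (List Bool × Cfg) × Instr => z.1.2.work.map hd) := by
    have hw : Computable (fun z : (List Bool × Cfg) × Instr => z.1.2.work) :=
      computable_cwork.comp hC
    have : Computable (fun l : List (List ℕ × List ℕ) => l.map hd) := by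
      refine (Primrec.list_map (f := fun l : List (List ℕ × List ℕ) => l)
        (g := fun _ t => hd t) Primrec.id ?_).to_comp
      have : Primrec hd := by
        refine ((Primrec.list_getD 0).comp Primrec.snd (Primrec.const 0)).of_eq (fun t => ?_)
        unfold hd
        cases t.2 <;> rfl
      exact this.comp Primrec.snd
    exact this.comp hw
  have h4 : Computable (fun z : (List Bool × Cfg) × Instr =>
      decide (z.2.rd = z.1.2.work.map hd)) := computable_eq (computable_ird.comp hi) h3
  exact Primrec.and.to_comp.comp h1 (Primrec.and.to_comp.comp h2 h4)

theorem computable_next : Computable (fun z : (List Bool × Cfg) × (Instr × Bool) =>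
    next z.2.1 z.1.1 z.1.2 z.2.2) := by
  have hi : Computable (fun z : (List Bool × Cfg) × (Instr × Bool) => z.2.1) :=
    Computable.fst.comp Computable.snd
  have ha : Computable (fun z : (List Bool × Cfg) × (Instr × Bool) => z.2.2) :=
    Computable.snd.comp Computable.snd
  have hx : Computable (fun z : (List Bool × Cfg) × (Instr × Bool) => z.1.1) :=
    Computable.fst.comp Computable.fst
  have hC : Computable (fun z : (List Bool × Cfg) × (Instr × Bool) => z.1.2) :=
    Computable.snd.comp Computable.fst
  have horc := computable_iorc.comp hi
  have hqry := computable_cqry.comp hC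
  have c1 : Computable (fun z : (List Bool × Cfg) × (Instr × Bool) =>
      decide (z.2.1.orc = some none)) := computable_eq horc (Computable.const (some none))
  have c2 : Computable (fun z : (List Bool × Cfg) × (Instr × Bool) => decide (z.2.2 = false)) :=
    computable_eq ha (Computable.const false)
  have c0 : Computable (fun z : (List Bool × Cfg) × (Instr × Bool) =>
      decide (z.2.1.orc = none)) := computable_eq horc (Computable.const none)
  have hst : Computable (fun z : (List Bool × Cfg) × (Instr × Bool) =>
      if (decide (z.2.1.orc = some none) && decide (z.2.2 = false)) = true then z.2.1.no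
        else z.2.1.yes) :=
    computable_ite (Primrec.and.to_comp.comp c1 c2) (computable_ino.comp hi)
      (computable_iyes.comp hi)
  have hpos : Computable (fun z : (List Bool × Cfg) × (Instr × Bool) =>
      mvPos z.1.1.length z.1.2.pos z.2.1.mvI) :=
    computable_mvPos (Computable.list_length.comp hx) (computable_cpos.comp hC)
      (computable_imvI.comp hi)
  have hwork : Computable (fun z : (List Bool × Cfg) × (Instr × Bool) =>
      (List.range z.1.2.work.length).map (fun k => upd (z.1.2.work.getD k ([], []))
        (z.2.1.wr.getD k 0) (z.2.1.mvW.getD k none))) := by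
    refine computable_rangeMap (h := fun (z : (List Bool × Cfg) × (Instr × Bool)) k =>
      upd (z.1.2.work.getD k ([], [])) (z.2.1.wr.getD k 0) (z.2.1.mvW.getD k none))
      (Computable.list_length.comp (computable_cwork.comp hC)) ?_
    refine computable_upd ?_ ?_ ?_
    · exact computable_getD ([], []) ((computable_cwork.comp hC).comp Computable.fst)
        Computable.snd
    · exact computable_getD 0 ((computable_iwr.comp hi).comp Computable.fst) Computable.snd
    · exact computable_getD none ((computable_imvW.comp hi).comp Computable.fst) Computable.snd
  have happ : Computable (fun z : (List Bool × Cfg) × (Instr × Bool) =>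
      z.1.2.qry ++ [decide (z.2.1.orc = some (some true))]) :=
    computable_append hqry (Computable.list_cons.comp
      (computable_eq horc (Computable.const (some (some true)))) (Computable.const []))
  have hq : Computable (fun z : (List Bool × Cfg) × (Instr × Bool) =>
      if decide (z.2.1.orc = none) = true then z.1.2.qry else
        if decide (z.2.1.orc = some none) = true then [] else
          z.1.2.qry ++ [decide (z.2.1.orc = some (some true))]) :=
    computable_ite c0 hqry (computable_ite c1 (Computable.const []) happ)
  refine (computable_mkCfg hst hpos hwork hq).of_eq (fun z => ?_)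
  unfold next
  congr 1
  · simp
  · rcases h : z.2.1.orc with _ | (_ | b)
    · simp
    · simp
    · cases b <;> simp

/-- membership in a finite list of words -/
def memB (O : List (List Bool)) (q : List Bool) : Bool :=
  decide (O.findIdx (fun w => decide (w = q)) < O.length)

theorem memB_iff (O : List (List Bool)) (q : List Bool) : memB O q = true ↔ q ∈ O := by
  unfold memB
  rw [decide_eq_true_eq, List.findIdx_lt_length]
  simp

theorem computable_memB : Computable₂ memB := by
  have h0 : Primrec (fun y : (List (List Bool) × List Bool) × List Bool =>
      decide (y.2 = y.1.2)) :=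
    (PrimrecRel.comp Primrec.eq Primrec.snd (Primrec.snd.comp Primrec.fst)).decide
  have h1 : Computable (fun z : List (List Bool) × List Bool =>
      z.1.findIdx (fun w => decide (w = z.2))) :=
    (Primrec.list_findIdx (f := fun z : List (List Bool) × List Bool => z.1)
      (p := fun z w => decide (w = z.2)) Primrec.fst h0).to_comp
  exact computable_lt h1 (Computable.list_length.comp Computable.fst)

/-- a default instruction -/
def dI : Instr := ⟨0, 0, [], [], none, [], none, 0, 0⟩

/-- an instruction applying to `C` -/
def pickI (M : Prog) (x : List Bool) (C : Cfg) : Option Instr :=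
  (find1 (fun k => appB (M.instrs.getD k dI) x C) M.instrs.length).map
    (fun k => M.instrs.getD k dI)

theorem find1_some {p : ℕ → Bool} {N j : ℕ} (h : find1 p N = some j) : j < N ∧ p j = true := by
  induction N with
  | zero => exact absurd h (by simp [find1])
  | succ N ih =>
    have h1 : find1 p (N + 1) = if p N then some N else find1 p N := rfl
    rw [h1] at h
    split_ifs at h with hN
    · have := Option.some_injective _ h
      subst this
      exact ⟨Nat.lt_succ_self _, hN⟩
    · obtain ⟨h2, h3⟩ := ih h
      exact ⟨by omega, h3⟩

theorem pickI_some {M : Prog} {x : List Bool} {C : Cfg} {i : Instr} (h : pickI M x C = some i) :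
    i ∈ M.instrs ∧ Applies i x C := by
  unfold pickI at h
  obtain ⟨k, hk, rfl⟩ := Option.map_eq_some_iff.1 h
  obtain ⟨h1, h2⟩ := find1_some hk
  refine ⟨?_, (appB_iff _ _ _).1 h2⟩
  rw [List.getD_eq_getElem _ _ h1]
  exact List.getElem_mem h1

theorem pickI_none_iff {M : Prog} {x : List Bool} {C : Cfg} :
    pickI M x C = none ↔ Halted M x C := by
  constructor
  · intro h i hi happ
    obtain ⟨k, hk, rfl⟩ := List.getElem_of_mem hi
    obtain ⟨j, _, _, h3⟩ := find1_spec (fun k => appB (M.instrs.getD k dI) x C)
      M.instrs.length k hk (by
        rw [List.getD_eq_getElem _ _ hk]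
        exact (appB_iff _ _ _).2 happ)
    unfold pickI at h
    rw [h3] at h
    simp at h
  · intro h
    cases hp : pickI M x C with
    | none => rfl
    | some i =>
      obtain ⟨h1, h2⟩ := pickI_some hp
      exact absurd h2 (h i h1)

theorem computable_pickI :
    Computable (fun z : (Prog × List Bool) × Cfg => pickI z.1.1 z.1.2 z.2) := by
  have hM : Computable (fun z : (Prog × List Bool) × Cfg => z.1.1.instrs) :=
    computable_pinstrs.comp (Computable.fst.comp Computable.fst)
  have h1 : Computable₂ (fun (z : (Prog × List Bool) × Cfg) (k : ℕ) =>
      appB (z.1.1.instrs.getD k dI) z.1.2 z.2) := by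
    have h2 : Computable (fun y : ((Prog × List Bool) × Cfg) × ℕ =>
        y.1.1.1.instrs.getD y.2 dI) :=
      computable_getD dI (hM.comp Computable.fst) Computable.snd
    have h3 : Computable (fun y : ((Prog × List Bool) × Cfg) × ℕ =>
        ((y.1.1.2, y.1.2), y.1.1.1.instrs.getD y.2 dI)) :=
      Computable.pair (Computable.pair (Computable.snd.comp (Computable.fst.comp Computable.fst))
        (Computable.snd.comp Computable.fst)) h2
    have := computable_appB.comp h3
    exact this
  have h4 : Computable (fun z : (Prog × List Bool) × Cfg =>
      find1 (fun k => appB (z.1.1.instrs.getD k dI) z.1.2 z.2) z.1.1.instrs.length) :=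
    computable_find1 h1 (Computable.list_length.comp hM)
  refine Computable.option_map (g := fun (z : (Prog × List Bool) × Cfg) k =>
    z.1.1.instrs.getD k dI) h4 ?_
  exact computable_getD dI (hM.comp Computable.fst) Computable.snd

/-- The configuration after `n` steps (computing with oracle `a` and stopping in halting
configurations), with the list of all words on the oracle tape met on the way. -/
def run (M : Prog) (x : List Bool) (a : List Bool → Bool) (n : ℕ) : Cfg × List (List Bool) :=
  n.rec (init M, []) (fun _ s => ((pickI M x s.1).map
    (fun i => (next i x s.1 (a s.1.qry), s.1.qry :: s.2))).getD s)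

theorem run_succ (M : Prog) (x : List Bool) (a : List Bool → Bool) (n : ℕ) :
    run M x a (n + 1) = ((pickI M x (run M x a n).1).map
    (fun i => (next i x (run M x a n).1 (a (run M x a n).1.qry), (run M x a n).1.qry ::
      (run M x a n).2))).getD (run M x a n) := rfl

theorem run_log_length (M : Prog) (x : List Bool) (a : List Bool → Bool) (n : ℕ) :
    (run M x a n).2.length ≤ n := by
  induction n with
  | zero => exact Nat.zero_le _
  | succ n ih =>
    rw [run_succ]
    cases h : pickI M x (run M x a n).1 with
    | none => simp only [Option.map_none, Option.getD_none]; omega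
    | some i => simp only [Option.map_some, Option.getD_some, List.length_cons]; omega

theorem run_congr {M : Prog} {x : List Bool} {a a' : List Bool → Bool} {n : ℕ}
    (h : ∀ q ∈ (run M x a n).2, a q = a' q) : run M x a n = run M x a' n := by
  induction n with
  | zero => rfl
  | succ n ih =>
    rw [run_succ] at h ⊢
    rw [run_succ]
    cases hp : pickI M x (run M x a n).1 with
    | none =>
      rw [hp] at h
      simp only [Option.map_none, Option.getD_none] at h ⊢
      have h1 := ih h
      rw [← h1, hp]
      rfl
    | some i =>
      rw [hp] at h
      simp only [Option.map_some, Option.getD_some] at h ⊢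
      have h1 := ih (fun q hq => h q (List.mem_cons_of_mem _ hq))
      rw [← h1, hp]
      simp only [Option.map_some, Option.getD_some]
      rw [h (run M x a n).1.qry List.mem_cons_self]

section irr

attribute [local irreducible] pickI next

theorem computable_run : Computable (fun z : (Prog × List Bool) × (List (List Bool) × ℕ) =>
    run z.1.1 z.1.2 (memB z.2.1) z.2.2) := by
  have hinit : Computable (fun z : (Prog × List Bool) × (List (List Bool) × ℕ) =>
      ((init z.1.1, []) : Cfg × List (List Bool))) := by
    refine Computable.pair ?_ (Computable.const [])
    have hM : Computable (fun z : (Prog × List Bool) × (List (List Bool) × ℕ) => z.1.1) :=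
      Computable.fst.comp Computable.fst
    have hw : Computable (fun z : (Prog × List Bool) × (List (List Bool) × ℕ) =>
        List.replicate z.1.1.tapes (([], []) : List ℕ × List ℕ)) := by
      refine (computable_rangeMap (h := fun (_ : (Prog × List Bool) × (List (List Bool) × ℕ))
        (_ : ℕ) => (([], []) : List ℕ × List ℕ)) (computable_ptapes.comp hM)
        (Computable.const _)).of_eq (fun z => ?_)
      rw [List.map_const', List.length_range]
    exact computable_mkCfg (computable_pstart.comp hM) (Computable.const 0) hw
      (Computable.const [])
  have hstep : Computable₂ (fun (z : (Prog × List Bool) × (List (List Bool) × ℕ))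
      (r : ℕ × (Cfg × List (List Bool))) => ((pickI z.1.1 z.1.2 r.2.1).map
        (fun i => (next i z.1.2 r.2.1 (memB z.2.1 r.2.1.qry), r.2.1.qry :: r.2.2))).getD r.2) := by
    have hz1 : Computable (fun y : ((Prog × List Bool) × (List (List Bool) × ℕ)) ×
        (ℕ × (Cfg × List (List Bool))) => y.1.1) := Computable.fst.comp Computable.fst
    have hC : Computable (fun y : ((Prog × List Bool) × (List (List Bool) × ℕ)) ×
        (ℕ × (Cfg × List (List Bool))) => y.2.2.1) :=
      Computable.fst.comp (Computable.snd.comp Computable.snd)
    have hL : Computable (fun y : ((Prog × List Bool) × (List (List Bool) × ℕ)) ×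
        (ℕ × (Cfg × List (List Bool))) => y.2.2.2) :=
      Computable.snd.comp (Computable.snd.comp Computable.snd)
    have hO : Computable (fun y : ((Prog × List Bool) × (List (List Bool) × ℕ)) ×
        (ℕ × (Cfg × List (List Bool))) => y.1.2.1) :=
      Computable.fst.comp (Computable.snd.comp Computable.fst)
    have hpick : Computable (fun y : ((Prog × List Bool) × (List (List Bool) × ℕ)) ×
        (ℕ × (Cfg × List (List Bool))) => pickI y.1.1.1 y.1.1.2 y.2.2.1) := by
      have := computable_pickI.comp (Computable.pair hz1 hC)
      exact this
    have hans : Computable (fun y : ((Prog × List Bool) × (List (List Bool) × ℕ)) ×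
        (ℕ × (Cfg × List (List Bool))) => memB y.1.2.1 y.2.2.1.qry) :=
      computable_memB.comp hO (computable_cqry.comp hC)
    have hlog : Computable (fun y : ((Prog × List Bool) × (List (List Bool) × ℕ)) ×
        (ℕ × (Cfg × List (List Bool))) => y.2.2.1.qry :: y.2.2.2) :=
      Computable.list_cons.comp (computable_cqry.comp hC) hL
    have hmap : Computable (fun y : ((Prog × List Bool) × (List (List Bool) × ℕ)) ×
        (ℕ × (Cfg × List (List Bool))) => (pickI y.1.1.1 y.1.1.2 y.2.2.1).map
          (fun i => (next i y.1.1.2 y.2.2.1 (memB y.1.2.1 y.2.2.1.qry),
            y.2.2.1.qry :: y.2.2.2))) := by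
      refine Computable.option_map (g := fun (y : ((Prog × List Bool) ×
        (List (List Bool) × ℕ)) × (ℕ × (Cfg × List (List Bool)))) i =>
          (next i y.1.1.2 y.2.2.1 (memB y.1.2.1 y.2.2.1.qry), y.2.2.1.qry :: y.2.2.2)) hpick ?_
      refine Computable.pair ?_ (hlog.comp Computable.fst)
      have hx : Computable (fun u : (((Prog × List Bool) × (List (List Bool) × ℕ)) ×
        (ℕ × (Cfg × List (List Bool)))) × Instr => u.1.1.1.2) :=
        Computable.snd.comp (hz1.comp Computable.fst)
      have hz : Computable (fun u : (((Prog × List Bool) × (List (List Bool) × ℕ)) ×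
        (ℕ × (Cfg × List (List Bool)))) × Instr =>
          ((u.1.1.1.2, u.1.2.2.1), (u.2, memB u.1.1.2.1 u.1.2.2.1.qry))) :=
        Computable.pair (Computable.pair hx (hC.comp Computable.fst))
          (Computable.pair Computable.snd (hans.comp Computable.fst))
      have := computable_next.comp hz
      exact this
    exact Computable.option_getD hmap (Computable.snd.comp Computable.snd)
  have hn : Computable (fun z : (Prog × List Bool) × (List (List Bool) × ℕ) => z.2.2) :=
    Computable.snd.comp Computable.snd
  exact (Computable.nat_rec hn hinit hstep).of_eq (fun z => rfl)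

end irr

/-- acceptance after `n` simulated steps -/
def accB (M : Prog) (x : List Bool) (a : List Bool → Bool) (n : ℕ) : Bool :=
  decide ((run M x a n).1.st = M.acc) && (pickI M x (run M x a n).1).isNone

open Classical in
/-- The simulation is correct for deterministic programs. -/
theorem run_spec {A : Set (List Bool)} {M : Prog} (hM : Deterministic M) {x : List Bool} {t : ℕ}
    {C : Cfg} (hs : Steps A M x t (init M) C) (hC : Halted M x C) {n : ℕ} (hn : t ≤ n) :
    (run M x (fun q => decide (q ∈ A)) n).1 = C := by
  have key : ∀ t k D, (run M x (fun q => decide (q ∈ A)) k).1 = D → Steps A M x t D C →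
      (run M x (fun q => decide (q ∈ A)) (k + t)).1 = C := by
    intro t
    induction t with
    | zero =>
      intro k D h1 h2
      have h2' : D = C := h2
      rw [Nat.add_zero, h1, h2']
    | succ t ih =>
      rintro k D h1 ⟨E, ⟨i, hi, happ, hE⟩, h3⟩
      have := ih (k + 1) E ?_ h3
      · rwa [show k + (t + 1) = k + 1 + t by ring]
      · rw [run_succ, h1]
        cases hp : pickI M x D with
        | none => exact absurd happ (pickI_none_iff.1 hp i hi)
        | some j =>
          obtain ⟨hj, hj2⟩ := pickI_some hp
          have hij : i = j := hM i hi j hj (happ.1.trans hj2.1.symm)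
            (happ.2.1.trans hj2.2.1.symm) (happ.2.2.trans hj2.2.2.symm)
          simp only [Option.map_some, Option.getD_some]
          rw [hE, hij]
  have h1 : (run M x (fun q => decide (q ∈ A)) t).1 = C := by
    have := key t 0 (init M) rfl hs
    rwa [Nat.zero_add] at this
  have h2 : ∀ m, (run M x (fun q => decide (q ∈ A)) (t + m)).1 = C := by
    intro m
    induction m with
    | zero => exact h1
    | succ m ih =>
      rw [← Nat.add_assoc, run_succ, ih, pickI_none_iff.2 hC]
      simp only [Option.map_none, Option.getD_none]
      exact ih
  have := h2 (n - t)
  rwa [Nat.add_sub_cancel' hn] at this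

open Classical in
theorem accB_spec {A : Set (List Bool)} {M : Prog} (hM : Deterministic M) {x : List Bool} {t : ℕ}
    {C : Cfg} (hs : Steps A M x t (init M) C) (hC : Halted M x C) {n : ℕ} (hn : t ≤ n) :
    accB M x (fun q => decide (q ∈ A)) n = true ↔ C.st = M.acc := by
  unfold accB
  rw [run_spec hM hs hC hn, pickI_none_iff.2 hC]
  simp

theorem accB_congr {M : Prog} {x : List Bool} {a a' : List Bool → Bool} {n : ℕ}
    (h : ∀ q ∈ (run M x a n).2, a q = a' q) : accB M x a n = accB M x a' n := by
  unfold accB
  rw [run_congr h]

end Pool.Agent.MP_b8a592_lc
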