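import Mathlib
import Pool.Agent.Lib.MP_b8a592_lc.Sim

/-!
Construction of the oracle.
-/

namespace Pool.Agent.MP_b8a592_lc

open Encodable
open Pool.Agent.MP_b653e9_lc (computable_eq computable_le computable_lt computable_add
  computable_sub computable_mul computable_pow computable_getD computable_append
  computable_length computable_ite computable_rangeMap computable_min find1 find1_spec
  computable_find1 wd num wd_length wd_num num_lt num_wd primrec_wd primrec_num primrec_pow)

/-! ### Numbering of words -/

/-- integer part of the binary logarithm -/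
def len (N : ℕ) : ℕ := Nat.findGreatest (fun k => 2 ^ k ≤ N) N

theorem len_spec {N : ℕ} (h : 1 ≤ N) : 2 ^ len N ≤ N ∧ N < 2 ^ (len N + 1) := by
  constructor
  · exact Nat.findGreatest_spec (P := fun k => 2 ^ k ≤ N) (Nat.zero_le N) (by simpa using h)
  · by_contra hcon
    have h1 : 2 ^ (len N + 1) ≤ N := not_lt.1 hcon
    have h2 : len N + 1 ≤ N := (Nat.lt_two_pow_self).le.trans h1
    have := Nat.le_findGreatest (P := fun k => 2 ^ k ≤ N) h2 h1
    have h3 : len N + 1 ≤ len N := this
    omega

theorem len_unique {N L : ℕ} (h1 : 2 ^ L ≤ N) (h2 : N < 2 ^ (L + 1)) : len N = L := by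
  have h0 : 1 ≤ N := (Nat.one_le_two_pow).trans h1
  obtain ⟨h3, h4⟩ := len_spec h0
  have h5 : L < len N + 1 := (Nat.pow_lt_pow_iff_right (by norm_num)).1 (h1.trans_lt h4)
  have h6 : len N < L + 1 := (Nat.pow_lt_pow_iff_right (by norm_num)).1 (h3.trans_lt h2)
  omega

/-- the word with number `N` -/
def ofNum (N : ℕ) : List Bool := wd (len N) (N - 2 ^ len N)

/-- the number of the word `u` -/
def unum (u : List Bool) : ℕ := 2 ^ u.length + num u

theorem len_unum (u : List Bool) : len (unum u) = u.length := by
  have := num_lt u
  unfold unum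
  apply len_unique
  · omega
  · rw [pow_succ]; omega

theorem ofNum_unum (u : List Bool) : ofNum (unum u) = u := by
  unfold ofNum
  rw [len_unum]
  unfold unum
  rw [Nat.add_sub_cancel_left, wd_num]

theorem unum_ofNum {N : ℕ} (h : 1 ≤ N) : unum (ofNum N) = N := by
  obtain ⟨h1, h2⟩ := len_spec h
  unfold unum ofNum
  rw [wd_length, num_wd _ _ (by rw [pow_succ] at h2; omega)]
  omega

theorem ofNum_length (N : ℕ) : (ofNum N).length = len N := wd_length _ _

theorem computable_len : Computable len := by
  have h : PrimrecRel (fun (N k : ℕ) => 2 ^ k ≤ N) :=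
    PrimrecRel.comp Primrec.nat_le (primrec_pow 2 Primrec.snd) Primrec.fst
  exact (Primrec.nat_findGreatest Primrec.id h).to_comp

theorem computable_ofNum : Computable ofNum :=
  primrec_wd.to_comp.comp computable_len
    (computable_sub Computable.id (computable_pow 2 computable_len))

theorem computable_unum : Computable unum :=
  computable_add (computable_pow 2 Computable.list_length) primrec_num.to_comp

/-! ### The family of words belonging to a task -/

/-- `w` consists of the bits of `u`, each followed by three arbitrary bits -/
def Fam : List Bool → List Bool → Prop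
  | [], [] => True
  | b :: u, c :: _ :: _ :: _ :: w => b = c ∧ Fam u w
  | _, _ => False

/-- every fourth bit of `w` -/
def keyR (w : List Bool) : List Bool := (List.range (w.length / 4)).map (fun i => w.getD (4 * i) false)

theorem keyR_cons (c x y z : Bool) (w : List Bool) :
    keyR (c :: x :: y :: z :: w) = c :: keyR w := by
  unfold keyR
  have h1 : (c :: x :: y :: z :: w).length / 4 = w.length / 4 + 1 := by
    simp only [List.length_cons]; omega
  rw [h1, List.range_succ_eq_map, List.map_cons, List.map_map]
  congr 1

theorem fam_iff (u w : List Bool) : Fam u w ↔ w.length = 4 * u.length ∧ keyR w = u := by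
  induction u generalizing w with
  | nil =>
    cases w with
    | nil => simp [Fam, keyR]
    | cons a w => simp [Fam]
  | cons b u ih =>
    match w with
    | [] => simp [Fam]
    | [_] => simp [Fam]; omega
    | [_, _] => simp [Fam]; omega
    | [_, _, _] => simp [Fam]; omega
    | c :: x :: y :: z :: w =>
      have h1 : Fam (b :: u) (c :: x :: y :: z :: w) ↔ b = c ∧ Fam u w := Iff.rfl
      rw [h1, ih, keyR_cons]
      simp only [List.length_cons, List.cons.injEq]
      constructor
      · rintro ⟨h2, h3, h4⟩; exact ⟨by omega, h2.symm, h4⟩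
      · rintro ⟨h2, h3, h4⟩; exact ⟨h3.symm, by omega, h4⟩

/-- all words of a family -/
def FF : List Bool → Finset (List Bool)
  | [] => {[]}
  | b :: u => ((Finset.univ : Finset (Bool × Bool × Bool)) ×ˢ FF u).image
      (fun p => b :: p.1.1 :: p.1.2.1 :: p.1.2.2 :: p.2)

theorem FF_fam (u w : List Bool) (h : w ∈ FF u) : Fam u w := by
  induction u generalizing w with
  | nil =>
    simp only [FF, Finset.mem_singleton] at h
    subst h; trivial
  | cons b u ih =>
    simp only [FF, Finset.mem_image, Finset.mem_product, Finset.mem_univ, true_and] at h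
    obtain ⟨p, h1, rfl⟩ := h
    exact ⟨rfl, ih _ h1⟩

theorem FF_card (u : List Bool) : (FF u).card = 8 ^ u.length := by
  induction u with
  | nil => rfl
  | cons b u ih =>
    unfold FF
    rw [Finset.card_image_of_injective, Finset.card_product, ih, List.length_cons, pow_succ]
    · have : (Finset.univ : Finset (Bool × Bool × Bool)).card = 8 := by decide
      rw [this]; ring
    · rintro ⟨⟨a1, a2, a3⟩, a4⟩ ⟨⟨b1, b2, b3⟩, b4⟩ h
      simp only [List.cons.injEq, true_and] at h
      obtain ⟨h1, h2, h3, h4⟩ := h
      subst h1 h2 h3 h4
      rfl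

theorem exists_fam (u : List Bool) (R : List (List Bool)) (h : R.length < 8 ^ u.length) :
    ∃ w, Fam u w ∧ w ∉ R := by
  classical
  have h1 : R.toFinset.card < (FF u).card := by
    rw [FF_card]; exact (List.toFinset_card_le R).trans_lt h
  obtain ⟨w, h2, h3⟩ := Finset.exists_mem_notMem_of_card_lt_card h1
  exact ⟨w, FF_fam u w h2, by simpa using h3⟩

/-- decision of `Fam` -/
def famB (u w : List Bool) : Bool := decide (w.length = 4 * u.length) && decide (keyR w = u)

theorem famB_iff (u w : List Bool) : famB u w = true ↔ Fam u w := by
  unfold famB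
  rw [fam_iff, Bool.and_eq_true, decide_eq_true_eq, decide_eq_true_eq]

theorem computable_keyR : Computable keyR := by
  refine computable_rangeMap (h := fun (w : List Bool) i => w.getD (4 * i) false)
    (Primrec.nat_div.to_comp.comp Computable.list_length (Computable.const 4)) ?_
  exact computable_getD false Computable.fst (computable_mul (Computable.const 4) Computable.snd)

theorem computable_famB : Computable₂ famB := by
  have h1 : Computable (fun z : List Bool × List Bool => decide (z.2.length = 4 * z.1.length)) :=
    computable_eq (Computable.list_length.comp Computable.snd)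
      (computable_mul (Computable.const 4) (Computable.list_length.comp Computable.fst))
  have h2 : Computable (fun z : List Bool × List Bool => decide (keyR z.2 = z.1)) :=
    computable_eq (computable_keyR.comp Computable.snd) Computable.fst
  exact Primrec.and.to_comp.comp h1 h2

/-! ### Tasks -/

/-- the number of leading `true`s -/
def jof (u : List Bool) : ℕ := u.findIdx (fun b => !b)

/-- the input of the task `u` -/
def xof (u : List Bool) : List Bool := u.drop (jof u + 1)

/-- a default program -/
def dP : Prog := ⟨0, 0, 0, []⟩

/-- the program with code `e` -/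
def decP (e : ℕ) : Prog := (decode (α := Prog) e).getD dP

/-- the program of the task `u` -/
def mach (u : List Bool) : Prog :=
  if decide (jof u = 0) = true then decP (xof u).length.unpair.1 else decP (jof u - 1).unpair.1

/-- the verdict of the task `u` -/
def verdict (u : List Bool) (a : List Bool → Bool) : Bool :=
  xor (decide (jof u = 0)) (accB (mach u) (xof u) a (2 ^ u.length))

theorem computable_jof : Computable jof :=
  (Primrec.list_findIdx Primrec.id (Primrec.not.comp Primrec.snd).to₂).to_comp

theorem computable_xof : Computable xof :=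
  Primrec.list_drop.to_comp.comp (Computable.succ.comp computable_jof) Computable.id

theorem computable_decP : Computable decP :=
  Computable.option_getD Computable.decode (Computable.const dP)

theorem computable_mach : Computable mach := by
  have h1 : Computable (fun u : List Bool => decide (jof u = 0)) :=
    computable_eq computable_jof (Computable.const 0)
  have h2 : Computable (fun u : List Bool => decP (xof u).length.unpair.1) := by
    have h3 : Computable (fun u : List Bool => (xof u).length) :=
      Computable.list_length.comp computable_xof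
    exact computable_decP.comp (Computable.fst.comp (Primrec.unpair.to_comp.comp h3))
  have h4 : Computable (fun u : List Bool => decP (jof u - 1).unpair.1) :=
    computable_decP.comp (Computable.fst.comp (Primrec.unpair.to_comp.comp
      (computable_sub computable_jof (Computable.const 1))))
  exact computable_ite h1 h2 h4

/-- one stage of the construction: `s.1` is the finite part of the oracle, `s.2` the list of
words which may not enter the oracle any more -/
def nxtS (N : ℕ) (s : List (List Bool) × List (List Bool)) : List (List Bool) × List (List Bool) :=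
  (if verdict (ofNum N) (memB s.1) = true then
    ((find1 (fun k => famB (ofNum N) (wd (4 * (ofNum N).length) k) &&
      !memB ((run (mach (ofNum N)) (xof (ofNum N)) (memB s.1) (2 ^ (ofNum N).length)).2 ++ s.2)
        (wd (4 * (ofNum N).length) k)) (2 ^ (4 * (ofNum N).length))).map
      (fun k => wd (4 * (ofNum N).length) k :: s.1)).getD s.1 else s.1,
    (run (mach (ofNum N)) (xof (ofNum N)) (memB s.1) (2 ^ (ofNum N).length)).2 ++ s.2)

/-- the stages -/
def stg (N : ℕ) : List (List Bool) × List (List Bool) := N.rec ([], []) (fun N s => nxtS N s)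

theorem stg_succ (N : ℕ) : stg (N + 1) = nxtS N (stg N) := rfl

/-- the oracle -/
def Orc : Set (List Bool) := {w | ∃ N, w ∈ (stg N).1}

/-- A stage either does not change the finite part, or adds one word of the right family. -/
theorem stage_cases (N : ℕ) : (stg (N + 1)).1 = (stg N).1 ∨
    ∃ w, (stg (N + 1)).1 = w :: (stg N).1 ∧ Fam (ofNum N) w ∧ w ∉ (stg (N + 1)).2 ∧
      verdict (ofNum N) (memB (stg N).1) = true := by
  rw [stg_succ]
  unfold nxtS
  simp only
  split_ifs with h
  · cases hf : find1 (fun k => famB (ofNum N) (wd (4 * (ofNum N).length) k) &&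
      !memB ((run (mach (ofNum N)) (xof (ofNum N)) (memB (stg N).1) (2 ^ (ofNum N).length)).2 ++
        (stg N).2) (wd (4 * (ofNum N).length) k)) (2 ^ (4 * (ofNum N).length)) with
    | none => left; simp
    | some k =>
      right
      obtain ⟨h1, h2⟩ := find1_some hf
      rw [Bool.and_eq_true, famB_iff, Bool.not_eq_true'] at h2
      refine ⟨wd (4 * (ofNum N).length) k, by simp, h2.1, ?_, h⟩
      intro hmem
      have := (memB_iff _ _).2 hmem
      rw [h2.2] at this
      exact absurd this (by simp)
  · left; rfl

theorem stg_snd (N : ℕ) : (stg (N + 1)).2 =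
    (run (mach (ofNum N)) (xof (ofNum N)) (memB (stg N).1) (2 ^ (ofNum N).length)).2 ++
      (stg N).2 := rfl

theorem stg_fst_mono {N N' : ℕ} (h : N ≤ N') {w : List Bool} (hw : w ∈ (stg N).1) :
    w ∈ (stg N').1 := by
  induction N', h using Nat.le_induction with
  | base => exact hw
  | succ N' _ ih =>
    rcases stage_cases N' with h1 | ⟨v, h1, _⟩
    · rw [h1]; exact ih
    · rw [h1]; exact List.mem_cons_of_mem _ ih

theorem stg_snd_mono {N N' : ℕ} (h : N ≤ N') {w : List Bool} (hw : w ∈ (stg N).2) :
    w ∈ (stg N').2 := by
  induction N', h using Nat.le_induction with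
  | base => exact hw
  | succ N' _ ih => rw [stg_snd]; exact List.mem_append_right _ ih

/-- a reserved word enters the oracle only before it was reserved -/
theorem reserved {N : ℕ} {q : List Bool} (hq : q ∈ (stg (N + 1)).2) :
    q ∈ Orc ↔ q ∈ (stg N).1 := by
  constructor
  · rintro ⟨N', hN'⟩
    by_contra hcon
    -- the stage where `q` enters
    have hex : ∃ m, q ∈ (stg m).1 := ⟨N', hN'⟩
    classical
    obtain ⟨m, hm1, hm2⟩ : ∃ m, q ∈ (stg m).1 ∧ ∀ m' < m, q ∉ (stg m').1 :=
      ⟨Nat.find hex, Nat.find_spec hex, fun m' hm' => Nat.find_min hex hm'⟩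
    have hNm : N < m := by
      by_contra h
      exact hcon (stg_fst_mono (not_lt.1 h) hm1)
    obtain ⟨m', rfl⟩ : ∃ m', m = m' + 1 := ⟨m - 1, by omega⟩
    have h1 := hm2 m' (by omega)
    rcases stage_cases m' with h2 | ⟨v, h2, _, h3, _⟩
    · rw [h2] at hm1; exact h1 hm1
    · rw [h2] at hm1
      rcases List.mem_cons.1 hm1 with h4 | h4
      · subst h4
        exact h3 (stg_snd_mono (by omega) hq)
      · exact h1 h4
  · intro h; exact ⟨N, h⟩

theorem reserved_length (N : ℕ) : 2 * (stg N).2.length + N ≤ N * N + 2 := by
  induction N with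
  | zero => simp [stg]
  | succ N ih =>
    rw [stg_snd, List.length_append]
    have h1 := run_log_length (mach (ofNum N)) (xof (ofNum N)) (memB (stg N).1)
      (2 ^ (ofNum N).length)
    rw [ofNum_length] at *
    by_cases hN : 1 ≤ N
    · have h2 := (len_spec hN).1
      nlinarith
    · have h0 : N = 0 := by omega
      subst h0
      have h3 : len 0 = 0 := rfl
      rw [h3] at h1
      have h4 : (stg 0).2.length = 0 := rfl
      rw [h4, h3]
      simp only [pow_zero] at h1 ⊢
      omega

theorem verdict_congr {u : List Bool} {a a' : List Bool → Bool}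
    (h : ∀ q ∈ (run (mach u) (xof u) a (2 ^ u.length)).2, a q = a' q) :
    verdict u a = verdict u a' := by
  unfold verdict
  rw [accB_congr h]

open Classical in
/-- The main property of the oracle. -/
theorem orc_spec {u : List Bool} (hu : u ≠ []) :
    (∃ w ∈ Orc, Fam u w) ↔ verdict u (fun q => decide (q ∈ Orc)) = true := by
  obtain ⟨N, hN⟩ : ∃ N, N = unum u := ⟨_, rfl⟩
  have huN : ofNum N = u := by rw [hN, ofNum_unum]
  have hL : 1 ≤ u.length := by
    rcases u with _ | ⟨b, u⟩
    · exact absurd rfl hu
    · simp
  have hv : verdict u (memB (stg N).1) = verdict u (fun q => decide (q ∈ Orc)) := by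
    apply verdict_congr
    intro q hq
    have h1 : q ∈ (stg (N + 1)).2 := by
      rw [stg_snd, huN]
      exact List.mem_append_left _ hq
    have h2 := reserved h1
    by_cases h3 : q ∈ Orc
    · rw [(memB_iff _ _).2 (h2.1 h3)]; simp [h3]
    · have h4 : memB (stg N).1 q = false := by
        by_contra hcon
        exact h3 (h2.2 ((memB_iff _ _).1 (by simpa using hcon)))
      rw [h4]; simp [h3]
  rw [← hv]
  constructor
  · rintro ⟨w, ⟨m, hm⟩, hw⟩
    have hex : ∃ m, w ∈ (stg m).1 := ⟨m, hm⟩
    obtain ⟨m, hm1, hm2⟩ : ∃ m, w ∈ (stg m).1 ∧ ∀ m' < m, w ∉ (stg m').1 :=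
      ⟨Nat.find hex, Nat.find_spec hex, fun m' hm' => Nat.find_min hex hm'⟩
    have hm0 : m ≠ 0 := by
      rintro rfl
      exact absurd hm1 (by simp [stg])
    obtain ⟨m', rfl⟩ : ∃ m', m = m' + 1 := ⟨m - 1, by omega⟩
    have h1 := hm2 m' (by omega)
    rcases stage_cases m' with h2 | ⟨v, h2, h3, _, h4⟩
    · rw [h2] at hm1; exact absurd hm1 h1
    · rw [h2] at hm1
      rcases List.mem_cons.1 hm1 with h5 | h5
      · subst h5
        have h6 : ofNum m' = u := by
          rw [← ((fam_iff _ _).1 h3).2, ((fam_iff _ _).1 hw).2]
        have h7 : 1 ≤ m' := by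
          by_contra hcon
          have : m' = 0 := by omega
          subst this
          have h8 : ofNum 0 = [] := rfl
          rw [h8] at h6
          exact hu h6.symm
        have h9 : m' = N := by rw [hN, ← h6, unum_ofNum h7]
        rw [h9, huN] at h4
        exact h4
      · exact absurd h5 h1
  · intro hver
    -- the word added at stage `N`
    have hlen := reserved_length (N + 1)
    have hnum := num_lt u
    have hNle : N + 1 ≤ 2 ^ (u.length + 1) := by
      rw [hN]; unfold unum; rw [pow_succ]; omega
    have hR : (stg (N + 1)).2.length < 8 ^ u.length := by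
      obtain ⟨P, hP⟩ : ∃ P, P = 2 ^ (u.length + 1) := ⟨_, rfl⟩
      have hP4 : 4 ≤ P := by
        rw [hP]
        calc 4 = 2 ^ 2 := rfl
          _ ≤ 2 ^ (u.length + 1) := Nat.pow_le_pow_right (by norm_num) (by omega)
      rw [← hP] at hNle
      have h1 : 2 * (stg (N + 1)).2.length + 2 ≤ P * P := by
        have : (N + 1) * (N + 1) + P ≤ P * P + (N + 1) := by nlinarith
        omega
      have h2 : P * P ≤ 2 * 8 ^ u.length := by
        have e1 : P * P = 2 * 2 ^ (2 * u.length + 1) := by
          rw [hP, ← pow_add]
          rw [show u.length + 1 + (u.length + 1) = (2 * u.length + 1) + 1 by ring, pow_succ]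
          ring
        have e2 : (8 : ℕ) ^ u.length = 2 ^ (3 * u.length) := by
          rw [pow_mul]; norm_num
        rw [e1, e2]
        exact Nat.mul_le_mul_left 2 (Nat.pow_le_pow_right (by norm_num) (by omega))
      omega
    obtain ⟨w, hw1, hw2⟩ := exists_fam u _ hR
    have hwlen : w.length = 4 * u.length := ((fam_iff _ _).1 hw1).1
    have hlt := num_lt w
    rw [hwlen] at hlt
    have hww : wd (4 * u.length) (num w) = w := by rw [← hwlen]; exact wd_num w
    obtain ⟨k, _, hk2, hk3⟩ := find1_spec (fun k => famB u (wd (4 * u.length) k) &&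
      !memB (stg (N + 1)).2 (wd (4 * u.length) k)) (2 ^ (4 * u.length)) (num w) hlt (by
        rw [hww, Bool.and_eq_true, famB_iff, Bool.not_eq_true']
        refine ⟨hw1, ?_⟩
        by_contra hcon
        exact hw2 ((memB_iff _ _).1 (by simpa using hcon)))
    have hadd : (stg (N + 1)).1 = wd (4 * u.length) k :: (stg N).1 := by
      rw [stg_snd, huN] at hk3
      rw [stg_succ]
      unfold nxtS
      simp only [huN]
      rw [if_pos hver, hk3]
      rfl
    rw [Bool.and_eq_true, famB_iff] at hk2
    exact ⟨wd (4 * u.length) k, ⟨N + 1, by rw [hadd]; exact List.mem_cons_self⟩, hk2.1⟩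

end Pool.Agent.MP_b8a592_lc
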