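import Mathlib
import Pool.Agent.Lib.MP_b8a592_lc.Oracle

/-!
The nondeterministic machines without work tapes.
-/

namespace Pool.Agent.MP_b8a592_lc

section good

variable {A : Set (List Bool)} {M : Prog} {x : List Bool}

/-- some path from `C` accepts -/
def AccFrom (A : Set (List Bool)) (M : Prog) (x : List Bool) (C : Cfg) : Prop :=
  ∃ t D, Steps A M x t C D ∧ Halted M x D ∧ D.st = M.acc

/-- all paths from `C` halt, and some path accepts iff `φ` -/
def Good (A : Set (List Bool)) (M : Prog) (x : List Bool) (C : Cfg) (φ : Prop) : Prop :=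
  Acc (fun D C => Step A M x C D) C ∧ (AccFrom A M x C ↔ φ)

theorem Good.congr {C : Cfg} {φ ψ : Prop} (h : Good A M x C φ) (h' : φ ↔ ψ) : Good A M x C ψ :=
  ⟨h.1, h.2.trans h'⟩

theorem not_step_of_halted {C D : Cfg} (h : Halted M x C) : ¬ Step A M x C D := by
  rintro ⟨i, hi, happ, _⟩
  exact h i hi happ

theorem good_halt {C : Cfg} (h : Halted M x C) : Good A M x C (C.st = M.acc) := by
  refine ⟨Acc.intro _ (fun D hD => absurd hD (not_step_of_halted h)), ?_⟩
  constructor
  · rintro ⟨t, D, h1, h2, h3⟩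
    cases t with
    | zero =>
      have : C = D := h1
      rw [this]; exact h3
    | succ t =>
      obtain ⟨E, hE, _⟩ := h1
      exact absurd hE (not_step_of_halted h)
  · intro h1
    exact ⟨0, C, rfl, h, h1⟩

theorem good_gen {C : Cfg} {ι : Type} [hne : Nonempty ι] (F : ι → Cfg) (φ : ι → Prop)
    (hS : ∀ D, Step A M x C D ↔ ∃ i, D = F i) (hG : ∀ i, Good A M x (F i) (φ i)) :
    Good A M x C (∃ i, φ i) := by
  refine ⟨Acc.intro _ (fun D hD => ?_), ?_⟩
  · obtain ⟨i, rfl⟩ := (hS D).1 hD
    exact (hG i).1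
  · constructor
    · rintro ⟨t, D, h1, h2, h3⟩
      cases t with
      | zero =>
        exfalso
        have hCD : C = D := h1
        subst hCD
        obtain ⟨i⟩ := hne
        exact not_step_of_halted h2 ((hS (F i)).2 ⟨i, rfl⟩)
      | succ t =>
        obtain ⟨E, hE, h4⟩ := h1
        obtain ⟨i, rfl⟩ := (hS E).1 hE
        exact ⟨i, (hG i).2.1 ⟨t, D, h4, h2, h3⟩⟩
    · rintro ⟨i, hi⟩
      obtain ⟨t, D, h1, h2, h3⟩ := (hG i).2.2 hi
      exact ⟨t + 1, D, ⟨F i, (hS _).2 ⟨i, rfl⟩, h1⟩, h2, h3⟩

theorem good_one {C D0 : Cfg} {φ : Prop} (hS : ∀ D, Step A M x C D ↔ D = D0)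
    (hG : Good A M x D0 φ) : Good A M x C φ := by
  have := good_gen (ι := Unit) (fun _ => D0) (fun _ => φ) (fun D => by rw [hS]; simp)
    (fun _ => hG)
  exact this.congr (by simp)

end good

/-! ### The machine -/

/-- instruction of the prefix phase -/
def preI (t : ℕ) (b : Bool) : Instr := ⟨t, 0, [], [], none, [], some (some b), t + 1, t + 1⟩

/-- leave the left end marker -/
def I0 (s : ℕ) : Instr := ⟨s, 0, [], [], some true, [], none, s, s⟩

/-- copy an input bit -/
def Ib (s : ℕ) (b : Bool) : Instr := ⟨s, b.toNat + 2, [], [], none, [], some (some b), s + 1, s + 1⟩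

/-- ask the query at the right end marker -/
def Iq (s : ℕ) : Instr := ⟨s, 1, [], [], none, [], some none, s + 4, s + 5⟩

/-- guess a bit -/
def Ig (s k : ℕ) (a g : Bool) : Instr :=
  ⟨s + k, a.toNat + 2, [], [], none, [], some (some g), s + k + 1, s + k + 1⟩

/-- guess a bit and move right -/
def Ir (s : ℕ) (a g : Bool) : Instr :=
  ⟨s + 3, a.toNat + 2, [], [], some true, [], some (some g), s, s⟩

/-- the prefix part -/
def preL (j : ℕ) : List Instr :=
  (List.range (4 * (j + 1))).flatMap (fun t => ([false, true].filter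
    (fun b => !decide (t % 4 = 0) || decide (b = decide (t / 4 < j)))).map (preI t))

/-- the input part -/
def inpL (s : ℕ) : List Instr :=
  [I0 s, Ib s false, Ib s true, Iq s,
    Ig s 1 false false, Ig s 1 false true, Ig s 1 true false, Ig s 1 true true,
    Ig s 2 false false, Ig s 2 false true, Ig s 2 true false, Ig s 2 true true,
    Ir s false false, Ir s false true, Ir s true false, Ir s true true]

/-- the machine writing `1^j 0 x` with guessed bits in between -/
def NProg (j : ℕ) : Prog := ⟨0, 0, 4 * (j + 1) + 4, preL j ++ inpL (4 * (j + 1))⟩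

theorem mem_preL (j : ℕ) (i : Instr) : i ∈ preL j ↔ ∃ t < 4 * (j + 1), ∃ b : Bool,
    (t % 4 = 0 → b = decide (t / 4 < j)) ∧ i = preI t b := by
  unfold preL
  simp only [List.mem_flatMap, List.mem_range, List.mem_map, List.mem_filter, Bool.or_eq_true,
    Bool.not_eq_true', decide_eq_false_iff_not, decide_eq_true_eq]
  constructor
  · rintro ⟨t, ht, b, ⟨_, hb⟩, rfl⟩
    refine ⟨t, ht, b, ?_, rfl⟩
    intro h0
    rcases hb with hb | hb
    · exact absurd h0 hb
    · exact hb
  · rintro ⟨t, ht, b, hb, rfl⟩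
    refine ⟨t, ht, b, ⟨by cases b <;> simp, ?_⟩, rfl⟩
    by_cases h0 : t % 4 = 0
    · exact Or.inr (hb h0)
    · exact Or.inl h0

/-- configurations of the machine -/
def cf (s p : ℕ) (q : List Bool) : Cfg := ⟨s, p, [], q⟩

theorem applies_cf (i : Instr) (x : List Bool) (s p : ℕ) (q : List Bool) :
    Applies i x (cf s p q) ↔ i.st = s ∧ i.inp = scan x p ∧ i.rd = [] := Iff.rfl

open Classical in
theorem step_cf (A : Set (List Bool)) (M : Prog) (x : List Bool) (s p : ℕ) (q : List Bool)
    (D : Cfg) : Step A M x (cf s p q) D ↔ ∃ i ∈ M.instrs, (i.st = s ∧ i.inp = scan x p ∧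
      i.rd = []) ∧ D = next i x (cf s p q) (decide (q ∈ A)) := Iff.rfl

theorem next_cf (i : Instr) (x : List Bool) (s p : ℕ) (q : List Bool) (ans : Bool) :
    next i x (cf s p q) ans = cf (if i.orc = some none ∧ ans = false then i.no else i.yes)
      (mvPos x.length p i.mvI) (match i.orc with
        | none => q
        | some none => []
        | some (some b) => q ++ [b]) := rfl

section steps

variable (A : Set (List Bool)) (j : ℕ) (x : List Bool)

theorem step_pre_letter {i : ℕ} (hi : i ≤ j) (q : List Bool) (D : Cfg) :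
    Step A (NProg j) x (cf (4 * i) 0 q) D ↔ D = cf (4 * i + 1) 0 (q ++ [decide (i < j)]) := by
  rw [step_cf]
  constructor
  · rintro ⟨I, hI, ⟨h1, h2, h3⟩, rfl⟩
    rcases List.mem_append.1 hI with h | h
    · obtain ⟨t, ht, b, hb, rfl⟩ := (mem_preL _ _).1 h
      have ht' : t = 4 * i := h1
      subst ht'
      rw [hb (by omega), show 4 * i / 4 = i by omega]
      rfl
    · exfalso
      have hs : ∀ I ∈ inpL (4 * (j + 1)), 4 * (j + 1) ≤ I.st := by
        intro I hI
        simp only [inpL, List.mem_cons, List.not_mem_nil, or_false] at hI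
        rcases hI with h | h | h | h | h | h | h | h | h | h | h | h | h | h | h | h <;>
          (subst h; simp only [I0, Ib, Iq, Ig, Ir]; omega)
      have := hs I h
      omega
  · rintro rfl
    refine ⟨preI (4 * i) (decide (i < j)), ?_, ⟨rfl, rfl, rfl⟩, rfl⟩
    refine List.mem_append_left _ ((mem_preL _ _).2 ⟨4 * i, by omega, _, ?_, rfl⟩)
    intro _
    rw [show 4 * i / 4 = i by omega]

theorem step_pre_guess {t : ℕ} (ht : t < 4 * (j + 1)) (ht4 : t % 4 ≠ 0) (q : List Bool)
    (D : Cfg) :
    Step A (NProg j) x (cf t 0 q) D ↔ ∃ b : Bool, D = cf (t + 1) 0 (q ++ [b]) := by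
  rw [step_cf]
  constructor
  · rintro ⟨I, hI, ⟨h1, h2, h3⟩, rfl⟩
    rcases List.mem_append.1 hI with h | h
    · obtain ⟨t', ht', b, hb, rfl⟩ := (mem_preL _ _).1 h
      have ht'' : t' = t := h1
      subst ht''
      exact ⟨b, rfl⟩
    · exfalso
      have hs : ∀ I ∈ inpL (4 * (j + 1)), 4 * (j + 1) ≤ I.st := by
        intro I hI
        simp only [inpL, List.mem_cons, List.not_mem_nil, or_false] at hI
        rcases hI with h | h | h | h | h | h | h | h | h | h | h | h | h | h | h | h <;>
          (subst h; simp only [I0, Ib, Iq, Ig, Ir]; omega)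
      have := hs I h
      omega
  · rintro ⟨b, rfl⟩
    refine ⟨preI t b, ?_, ⟨rfl, rfl, rfl⟩, rfl⟩
    exact List.mem_append_left _ ((mem_preL _ _).2 ⟨t, ht, b, fun h => absurd h ht4, rfl⟩)

/-- the instructions used in the input phase -/
theorem mem_inp {I : Instr} {k : ℕ} (hI : I ∈ (NProg j).instrs) (hst : I.st = 4 * (j + 1) + k) :
    I ∈ inpL (4 * (j + 1)) := by
  rcases List.mem_append.1 hI with h | h
  · exfalso
    obtain ⟨t, ht, b, hb, rfl⟩ := (mem_preL _ _).1 h
    have : t = 4 * (j + 1) + k := hst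
    omega
  · exact h

theorem scan_zero : scan x 0 = 0 := rfl

theorem scan_end : scan x (x.length + 1) = 1 := by
  unfold scan
  simp

theorem scan_bit {p : ℕ} (hp : p < x.length) : scan x (p + 1) = x[p].toNat + 2 := by
  unfold scan
  simp [hp]

theorem step_left (q : List Bool) (D : Cfg) :
    Step A (NProg j) x (cf (4 * (j + 1)) 0 q) D ↔ D = cf (4 * (j + 1)) 1 q := by
  rw [step_cf, scan_zero]
  constructor
  · rintro ⟨I, hI, ⟨h1, h2, h3⟩, rfl⟩
    have hI' := mem_inp j (k := 0) hI h1
    simp only [inpL, List.mem_cons, List.not_mem_nil, or_false] at hI'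
    rcases hI' with h | h | h | h | h | h | h | h | h | h | h | h | h | h | h | h <;> subst h <;>
      simp only [I0, Ib, Iq, Ig, Ir] at h1 h2 <;> first | omega | (rw [next_cf]; simp [I0, mvPos])
  · rintro rfl
    refine ⟨I0 (4 * (j + 1)), List.mem_append_right _ (by simp [inpL]), ⟨rfl, rfl, rfl⟩, ?_⟩
    rw [next_cf]; simp [I0, mvPos]

theorem step_letter {p : ℕ} (hp : p < x.length) (q : List Bool) (D : Cfg) :
    Step A (NProg j) x (cf (4 * (j + 1)) (p + 1) q) D ↔
      D = cf (4 * (j + 1) + 1) (p + 1) (q ++ [x[p]]) := by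
  rw [step_cf, scan_bit x hp]
  constructor
  · rintro ⟨I, hI, ⟨h1, h2, h3⟩, rfl⟩
    have hI' := mem_inp j (k := 0) hI h1
    simp only [inpL, List.mem_cons, List.not_mem_nil, or_false] at hI'
    rcases hI' with h | h | h | h | h | h | h | h | h | h | h | h | h | h | h | h <;> subst h <;>
      simp only [I0, Ib, Iq, Ig, Ir] at h1 h2 <;> first | omega |
        (cases hb : x[p] <;> simp [hb] at h2 <;> rfl)
  · rintro rfl
    refine ⟨Ib (4 * (j + 1)) x[p], List.mem_append_right _ ?_, ⟨rfl, rfl, rfl⟩, rfl⟩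
    cases x[p] <;> simp [inpL]

theorem step_guess {k : ℕ} (hk : k = 1 ∨ k = 2) {p : ℕ} (hp : p < x.length) (q : List Bool)
    (D : Cfg) : Step A (NProg j) x (cf (4 * (j + 1) + k) (p + 1) q) D ↔
      ∃ g : Bool, D = cf (4 * (j + 1) + k + 1) (p + 1) (q ++ [g]) := by
  rw [step_cf, scan_bit x hp]
  constructor
  · rintro ⟨I, hI, ⟨h1, h2, h3⟩, rfl⟩
    have hI' := mem_inp j hI h1
    simp only [inpL, List.mem_cons, List.not_mem_nil, or_false] at hI'
    rcases hI' with h | h | h | h | h | h | h | h | h | h | h | h | h | h | h | h <;> subst h <;>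
      simp only [I0, Ib, Iq, Ig, Ir] at h1 h2 <;> first | omega |
        (rcases hk with rfl | rfl <;> first | omega | exact ⟨_, rfl⟩)
  · rintro ⟨g, rfl⟩
    refine ⟨Ig (4 * (j + 1)) k x[p] g, List.mem_append_right _ ?_, ⟨rfl, rfl, rfl⟩, rfl⟩
    rcases hk with rfl | rfl <;> cases x[p] <;> cases g <;> simp [inpL]

theorem step_last {p : ℕ} (hp : p < x.length) (q : List Bool) (D : Cfg) :
    Step A (NProg j) x (cf (4 * (j + 1) + 3) (p + 1) q) D ↔
      ∃ g : Bool, D = cf (4 * (j + 1)) (p + 2) (q ++ [g]) := by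
  have hmv : mvPos x.length (p + 1) (some true) = p + 2 := by simp [mvPos]; omega
  rw [step_cf, scan_bit x hp]
  constructor
  · rintro ⟨I, hI, ⟨h1, h2, h3⟩, rfl⟩
    have hI' := mem_inp j hI h1
    simp only [inpL, List.mem_cons, List.not_mem_nil, or_false] at hI'
    rcases hI' with h | h | h | h | h | h | h | h | h | h | h | h | h | h | h | h <;> subst h <;>
      simp only [I0, Ib, Iq, Ig, Ir] at h1 h2 <;> first | omega |
        (rw [next_cf]; simp only [Ir]; rw [hmv]; exact ⟨_, rfl⟩)
  · rintro ⟨g, rfl⟩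
    refine ⟨Ir (4 * (j + 1)) x[p] g, List.mem_append_right _ ?_, ⟨rfl, rfl, rfl⟩, ?_⟩
    · cases x[p] <;> cases g <;> simp [inpL]
    · rw [next_cf]; simp only [Ir]; rw [hmv]; rfl

open Classical in
theorem step_ask (q : List Bool) (D : Cfg) :
    Step A (NProg j) x (cf (4 * (j + 1)) (x.length + 1) q) D ↔
      D = cf (if q ∈ A then 4 * (j + 1) + 4 else 4 * (j + 1) + 5) (x.length + 1) [] := by
  have hn : next (Iq (4 * (j + 1))) x (cf (4 * (j + 1)) (x.length + 1) q) (decide (q ∈ A)) =
      cf (if q ∈ A then 4 * (j + 1) + 4 else 4 * (j + 1) + 5) (x.length + 1) [] := by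
    rw [next_cf]
    by_cases hq : q ∈ A <;> simp [Iq, hq, mvPos]
  rw [step_cf, scan_end]
  constructor
  · rintro ⟨I, hI, ⟨h1, h2, h3⟩, rfl⟩
    have hI' := mem_inp j (k := 0) hI h1
    simp only [inpL, List.mem_cons, List.not_mem_nil, or_false] at hI'
    rcases hI' with h | h | h | h | h | h | h | h | h | h | h | h | h | h | h | h <;> subst h <;>
      simp only [I0, Ib, Iq, Ig, Ir] at h1 h2 <;> first | omega | exact hn
  · rintro rfl
    exact ⟨Iq (4 * (j + 1)), List.mem_append_right _ (by simp [inpL]), ⟨rfl, rfl, rfl⟩, hn.symm⟩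

theorem halted_end {s : ℕ} (hs : 4 * (j + 1) + 4 ≤ s) (p : ℕ) (q : List Bool) :
    Halted (NProg j) x (cf s p q) := by
  intro I hI happ
  obtain ⟨k, hk⟩ : ∃ k, s = 4 * (j + 1) + k := ⟨s - 4 * (j + 1), by omega⟩
  have h1 : I.st = s := happ.1
  have hI' := mem_inp j (k := k) hI (by rw [h1, hk])
  simp only [inpL, List.mem_cons, List.not_mem_nil, or_false] at hI'
  rcases hI' with h | h | h | h | h | h | h | h | h | h | h | h | h | h | h | h <;> subst h <;>
    simp only [I0, Ib, Iq, Ig, Ir] at h1 <;> omega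

/-! ### Analysis -/

theorem good_end (q : List Bool) :
    Good A (NProg j) x (cf (4 * (j + 1)) (x.length + 1) q) (q ∈ A) := by
  classical
  refine good_one (step_ask A j x q) ?_
  have hh : Halted (NProg j) x
      (cf (if q ∈ A then 4 * (j + 1) + 4 else 4 * (j + 1) + 5) (x.length + 1) []) := by
    apply halted_end
    split_ifs <;> omega
  refine (good_halt hh).congr ?_
  show (if q ∈ A then 4 * (j + 1) + 4 else 4 * (j + 1) + 5) = 4 * (j + 1) + 4 ↔ q ∈ A
  by_cases hq : q ∈ A
  · simp [hq]
  · simp [hq]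

theorem fam_cons (b : Bool) (u : List Bool) (φ : List Bool → Prop) :
    (∃ w, Fam (b :: u) w ∧ φ w) ↔ ∃ g1 g2 g3 w, Fam u w ∧ φ (b :: g1 :: g2 :: g3 :: w) := by
  constructor
  · rintro ⟨w, hw, hφ⟩
    match w, hw, hφ with
    | c :: g1 :: g2 :: g3 :: w, hw, hφ =>
      obtain ⟨rfl, h2⟩ := hw
      exact ⟨g1, g2, g3, w, h2, hφ⟩
  · rintro ⟨g1, g2, g3, w, hw, hφ⟩
    exact ⟨b :: g1 :: g2 :: g3 :: w, ⟨rfl, hw⟩, hφ⟩

theorem good_input (d : ℕ) : ∀ (p : ℕ) (q : List Bool), p + d = x.length →
    Good A (NProg j) x (cf (4 * (j + 1)) (p + 1) q) (∃ w, Fam (x.drop p) w ∧ q ++ w ∈ A) := by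
  induction d with
  | zero =>
    intro p q hp
    have hp' : p = x.length := by omega
    subst hp'
    refine (good_end A j x q).congr ?_
    rw [List.drop_length]
    constructor
    · intro h; exact ⟨[], trivial, by simpa using h⟩
    · rintro ⟨w, hw, h⟩
      cases w with
      | nil => simpa using h
      | cons a w => exact absurd hw (by simp [Fam])
  | succ d ih =>
    intro p q hp
    have hp' : p < x.length := by omega
    have h4 : ∀ q', Good A (NProg j) x (cf (4 * (j + 1) + 3) (p + 1) q')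
        (∃ g : Bool, ∃ w, Fam (x.drop (p + 1)) w ∧ (q' ++ [g]) ++ w ∈ A) := fun q' =>
      good_gen (fun g => cf (4 * (j + 1)) (p + 2) (q' ++ [g])) _
        (step_last A j x hp' q') (fun g => ih (p + 1) (q' ++ [g]) (by omega))
    have h3 : ∀ q', Good A (NProg j) x (cf (4 * (j + 1) + 2) (p + 1) q')
        (∃ g2 g : Bool, ∃ w, Fam (x.drop (p + 1)) w ∧ ((q' ++ [g2]) ++ [g]) ++ w ∈ A) := fun q' =>
      good_gen (fun g => cf (4 * (j + 1) + 2 + 1) (p + 1) (q' ++ [g])) _
        (step_guess A j x (Or.inr rfl) hp' q') (fun g => h4 (q' ++ [g]))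
    have h2 : ∀ q', Good A (NProg j) x (cf (4 * (j + 1) + 1) (p + 1) q')
        (∃ g1 g2 g : Bool, ∃ w, Fam (x.drop (p + 1)) w ∧
          (((q' ++ [g1]) ++ [g2]) ++ [g]) ++ w ∈ A) := fun q' =>
      good_gen (fun g => cf (4 * (j + 1) + 1 + 1) (p + 1) (q' ++ [g])) _
        (step_guess A j x (Or.inl rfl) hp' q') (fun g => h3 (q' ++ [g]))
    refine (good_one (step_letter A j x hp' q) (h2 (q ++ [x[p]]))).congr ?_
    rw [List.drop_eq_getElem_cons hp', fam_cons]
    simp only [List.append_assoc, List.cons_append, List.nil_append]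

theorem good_start (q : List Bool) : Good A (NProg j) x (cf (4 * (j + 1)) 0 q)
    (∃ w, Fam x w ∧ q ++ w ∈ A) := by
  have := good_input A j x x.length 0 q (by simp)
  rw [List.drop_zero] at this
  exact good_one (step_left A j x q) this

theorem good_prefix (d : ℕ) : ∀ (i : ℕ) (q : List Bool), i + d = j + 1 →
    Good A (NProg j) x (cf (4 * i) 0 q)
      (∃ w, Fam ((List.replicate j true ++ false :: x).drop i) w ∧ q ++ w ∈ A) := by
  induction d with
  | zero =>
    intro i q hi
    have hi' : i = j + 1 := by omega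
    subst hi'
    refine (good_start A j x q).congr ?_
    have : (List.replicate j true ++ false :: x).drop (j + 1) = x := by
      rw [List.drop_append]; simp
    rw [this]
  | succ d ih =>
    intro i q hi
    have hij : i ≤ j := by omega
    have h4 : ∀ q', Good A (NProg j) x (cf (4 * i + 3) 0 q')
        (∃ g : Bool, ∃ w, Fam ((List.replicate j true ++ false :: x).drop (i + 1)) w ∧
          (q' ++ [g]) ++ w ∈ A) := fun q' =>
      good_gen (fun g => cf (4 * i + 3 + 1) 0 (q' ++ [g])) _
        (step_pre_guess A j x (by omega) (by omega) q')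
        (fun g => ih (i + 1) (q' ++ [g]) (by omega))
    have h3 : ∀ q', Good A (NProg j) x (cf (4 * i + 2) 0 q')
        (∃ g2 g : Bool, ∃ w, Fam ((List.replicate j true ++ false :: x).drop (i + 1)) w ∧
          ((q' ++ [g2]) ++ [g]) ++ w ∈ A) := fun q' =>
      good_gen (fun g => cf (4 * i + 2 + 1) 0 (q' ++ [g])) _
        (step_pre_guess A j x (by omega) (by omega) q') (fun g => h4 (q' ++ [g]))
    have h2 : ∀ q', Good A (NProg j) x (cf (4 * i + 1) 0 q')
        (∃ g1 g2 g : Bool, ∃ w, Fam ((List.replicate j true ++ false :: x).drop (i + 1)) w ∧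
          (((q' ++ [g1]) ++ [g2]) ++ [g]) ++ w ∈ A) := fun q' =>
      good_gen (fun g => cf (4 * i + 1 + 1) 0 (q' ++ [g])) _
        (step_pre_guess A j x (by omega) (by omega) q') (fun g => h3 (q' ++ [g]))
    refine (good_one (step_pre_letter A j x hij q) (h2 (q ++ [decide (i < j)]))).congr ?_
    have hlen : i < (List.replicate j true ++ false :: x).length := by simp; omega
    have hget : (List.replicate j true ++ false :: x)[i] = decide (i < j) := by
      by_cases h : i < j
      · rw [List.getElem_append_left (by simpa using h)]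
        simp [h]
      · have : i = j := by omega
        subst this
        simp
    rw [List.drop_eq_getElem_cons hlen, fam_cons, hget]
    simp only [List.append_assoc, List.cons_append, List.nil_append]

theorem good_init : Good A (NProg j) x (init (NProg j))
    (∃ w ∈ A, Fam (List.replicate j true ++ false :: x) w) := by
  have h1 : init (NProg j) = cf (4 * 0) 0 [] := rfl
  rw [h1]
  refine (good_prefix A j x (j + 1) 0 [] (by omega)).congr ?_
  rw [List.drop_zero]
  constructor
  · rintro ⟨w, h1, h2⟩; exact ⟨w, by simpa using h2, h1⟩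
  · rintro ⟨w, h1, h2⟩; exact ⟨w, h2, by simpa using h1⟩

end steps

theorem steps_work {A : Set (List Bool)} {M : Prog} {x : List Bool} (t : ℕ) :
    ∀ {C D : Cfg}, Steps A M x t C D → C.work = [] → D.work = [] := by
  induction t with
  | zero =>
    intro C D h hC
    have : C = D := h
    rw [← this]; exact hC
  | succ t ih =>
    rintro C D ⟨E, ⟨i, _, _, rfl⟩, h2⟩ hC
    refine ih h2 ?_
    show (List.range C.work.length).map _ = []
    rw [hC]; rfl

/-- The languages of the machines are in `NL_*^A`. -/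
theorem nprog_mem (A : Set (List Bool)) (j : ℕ) :
    {x : List Bool | ∃ w ∈ A, Fam (List.replicate j true ++ false :: x) w} ∈ NLClass A := by
  refine ⟨NProg j, ?_, ⟨0, ?_⟩, ?_⟩
  · rintro x ⟨f, hf0, hf⟩
    have hacc := (good_init A j x).1
    rw [← hf0] at hacc
    -- an accessible point starts no infinite path
    have key : ∀ C, Acc (fun D C => Step A (NProg j) x C D) C → ∀ n, f n ≠ C := by
      intro C hC
      induction hC with
      | intro C _ ih =>
        intro n hn
        refine ih (f (n + 1)) ?_ (n + 1) rfl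
        rw [← hn]; exact hf n
    exact key _ hacc 0 rfl
  · intro x t C hC
    have := steps_work t hC rfl
    unfold cells
    rw [this]
    simp
  · intro x
    exact (good_init A j x).2.symm

end Pool.Agent.MP_b8a592_lc
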