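import Mathlib
import Pool.Agent.Lib.MP_b8a592_lc.Oracle

/-!
The oracle is recursive.
-/

namespace Pool.Agent.MP_b8a592_lc

open Encodable
open Pool.Agent.MP_b653e9_lc (computable_eq computable_le computable_lt computable_add
  computable_sub computable_mul computable_pow computable_getD computable_append
  computable_length computable_ite computable_rangeMap computable_min find1 find1_spec
  computable_find1 wd num wd_length wd_num num_lt num_wd primrec_wd primrec_num primrec_pow)

abbrev S2 := List (List Bool) × List (List Bool)

section irr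

attribute [local irreducible] run pickI next memB famB ofNum mach xof jof

/-- the run belonging to a stage -/
theorem computable_stageRun : Computable (fun z : ℕ × S2 =>
    run (mach (ofNum z.1)) (xof (ofNum z.1)) (memB z.2.1) (2 ^ (ofNum z.1).length)) := by
  have hu : Computable (fun z : ℕ × S2 => ofNum z.1) := computable_ofNum.comp Computable.fst
  have h1 : Computable (fun z : ℕ × S2 => ((mach (ofNum z.1), xof (ofNum z.1)),
      (z.2.1, 2 ^ (ofNum z.1).length))) :=
    Computable.pair (Computable.pair (computable_mach.comp hu) (computable_xof.comp hu))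
      (Computable.pair (Computable.fst.comp Computable.snd)
        (computable_pow 2 (Computable.list_length.comp hu)))
  have := computable_run.comp h1
  exact this

theorem computable_stageVerdict : Computable (fun z : ℕ × S2 =>
    verdict (ofNum z.1) (memB z.2.1)) := by
  have hu : Computable (fun z : ℕ × S2 => ofNum z.1) := computable_ofNum.comp Computable.fst
  have hC : Computable (fun z : ℕ × S2 => (run (mach (ofNum z.1)) (xof (ofNum z.1))
      (memB z.2.1) (2 ^ (ofNum z.1).length)).1) := Computable.fst.comp computable_stageRun
  have hm : Computable (fun z : ℕ × S2 => mach (ofNum z.1)) := computable_mach.comp hu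
  have h1 : Computable (fun z : ℕ × S2 => decide ((run (mach (ofNum z.1)) (xof (ofNum z.1))
      (memB z.2.1) (2 ^ (ofNum z.1).length)).1.st = (mach (ofNum z.1)).acc)) :=
    computable_eq (computable_cst.comp hC) (computable_pacc.comp hm)
  have h2 : Computable (fun z : ℕ × S2 => pickI (mach (ofNum z.1)) (xof (ofNum z.1))
      (run (mach (ofNum z.1)) (xof (ofNum z.1)) (memB z.2.1) (2 ^ (ofNum z.1).length)).1) := by
    have h3 : Computable (fun z : ℕ × S2 => ((mach (ofNum z.1), xof (ofNum z.1)),
        (run (mach (ofNum z.1)) (xof (ofNum z.1)) (memB z.2.1) (2 ^ (ofNum z.1).length)).1)) :=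
      Computable.pair (Computable.pair hm (computable_xof.comp hu)) hC
    have := computable_pickI.comp h3
    exact this
  have h4 : Computable (fun z : ℕ × S2 => (pickI (mach (ofNum z.1)) (xof (ofNum z.1))
      (run (mach (ofNum z.1)) (xof (ofNum z.1)) (memB z.2.1)
        (2 ^ (ofNum z.1).length)).1).isNone) := by
    have h5 : Computable (fun o : Option Instr => o.isNone) :=
      (Primrec.not.comp Primrec.option_isSome).to_comp.of_eq (fun o => by cases o <;> rfl)
    exact h5.comp h2
  have h6 : Computable (fun z : ℕ × S2 => accB (mach (ofNum z.1)) (xof (ofNum z.1))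
      (memB z.2.1) (2 ^ (ofNum z.1).length)) := Primrec.and.to_comp.comp h1 h4
  have h7 : Computable (fun z : ℕ × S2 => decide (jof (ofNum z.1) = 0)) :=
    computable_eq (computable_jof.comp hu) (Computable.const 0)
  have h9 : Computable (fun z : ℕ × S2 =>
      if decide (jof (ofNum z.1) = 0) = true then
        !(accB (mach (ofNum z.1)) (xof (ofNum z.1)) (memB z.2.1) (2 ^ (ofNum z.1).length))
        else accB (mach (ofNum z.1)) (xof (ofNum z.1)) (memB z.2.1) (2 ^ (ofNum z.1).length)) :=
    computable_ite h7 (Primrec.not.to_comp.comp h6) h6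
  refine h9.of_eq (fun z => ?_)
  unfold verdict
  cases decide (jof (ofNum z.1) = 0) <;> simp

theorem computable_nxtS : Computable (fun z : ℕ × S2 => nxtS z.1 z.2) := by
  have hu : Computable (fun z : ℕ × S2 => ofNum z.1) := computable_ofNum.comp Computable.fst
  have hlog : Computable (fun z : ℕ × S2 => (run (mach (ofNum z.1)) (xof (ofNum z.1))
      (memB z.2.1) (2 ^ (ofNum z.1).length)).2 ++ z.2.2) :=
    computable_append (Computable.snd.comp computable_stageRun)
      (Computable.snd.comp Computable.snd)
  have h4 : Computable (fun z : ℕ × S2 => 4 * (ofNum z.1).length) :=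
    computable_mul (Computable.const 4) (Computable.list_length.comp hu)
  have hcand : Computable₂ (fun (z : ℕ × S2) (k : ℕ) =>
      famB (ofNum z.1) (wd (4 * (ofNum z.1).length) k) &&
      !memB ((run (mach (ofNum z.1)) (xof (ofNum z.1)) (memB z.2.1)
        (2 ^ (ofNum z.1).length)).2 ++ z.2.2) (wd (4 * (ofNum z.1).length) k)) := by
    have hw : Computable (fun y : (ℕ × S2) × ℕ => wd (4 * (ofNum y.1.1).length) y.2) :=
      primrec_wd.to_comp.comp (h4.comp Computable.fst) Computable.snd
    have h5 : Computable (fun y : (ℕ × S2) × ℕ => famB (ofNum y.1.1)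
        (wd (4 * (ofNum y.1.1).length) y.2)) :=
      computable_famB.comp (hu.comp Computable.fst) hw
    have h6 : Computable (fun y : (ℕ × S2) × ℕ => memB ((run (mach (ofNum y.1.1))
        (xof (ofNum y.1.1)) (memB y.1.2.1) (2 ^ (ofNum y.1.1).length)).2 ++ y.1.2.2)
        (wd (4 * (ofNum y.1.1).length) y.2)) :=
      computable_memB.comp (hlog.comp Computable.fst) hw
    exact Primrec.and.to_comp.comp h5 (Primrec.not.to_comp.comp h6)
  have hfind := computable_find1 hcand (computable_pow 2 h4)
  have hadd : Computable (fun z : ℕ × S2 => ((find1 (fun k =>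
      famB (ofNum z.1) (wd (4 * (ofNum z.1).length) k) &&
      !memB ((run (mach (ofNum z.1)) (xof (ofNum z.1)) (memB z.2.1)
        (2 ^ (ofNum z.1).length)).2 ++ z.2.2) (wd (4 * (ofNum z.1).length) k))
        (2 ^ (4 * (ofNum z.1).length))).map
      (fun k => wd (4 * (ofNum z.1).length) k :: z.2.1)).getD z.2.1) := by
    refine Computable.option_getD (Computable.option_map (g := fun (z : ℕ × S2) k =>
      wd (4 * (ofNum z.1).length) k :: z.2.1) hfind ?_) (Computable.fst.comp Computable.snd)
    have hw : Computable (fun y : (ℕ × S2) × ℕ => wd (4 * (ofNum y.1.1).length) y.2) :=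
      primrec_wd.to_comp.comp (h4.comp Computable.fst) Computable.snd
    exact Computable.list_cons.comp hw
      (Computable.fst.comp (Computable.snd.comp Computable.fst))
  exact Computable.pair (computable_ite computable_stageVerdict hadd
    (Computable.fst.comp Computable.snd)) hlog

end irr

theorem computable_stg : Computable stg := by
  have h1 : Computable₂ (fun (_ : ℕ) (r : ℕ × S2) => nxtS r.1 r.2) :=
    computable_nxtS.comp Computable.snd
  exact (Computable.nat_rec Computable.id (Computable.const (([], []) : S2)) h1).of_eq
    (fun _ => rfl)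

/-- The oracle is recursive. -/
theorem orc_computable : ComputablePred (fun w => w ∈ Orc) := by
  have h1 : Computable (fun w : List Bool => memB (stg (unum (keyR w) + 1)).1 w) := by
    have h2 : Computable (fun w : List Bool => (stg (unum (keyR w) + 1)).1) :=
      Computable.fst.comp (computable_stg.comp (Computable.succ.comp
        (computable_unum.comp computable_keyR)))
    exact computable_memB.comp h2 Computable.id
  refine ComputablePred.computable_iff.2 ⟨_, h1, ?_⟩
  funext w
  rw [eq_iff_iff, memB_iff]
  constructor
  · rintro ⟨m, hm⟩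
    have hex : ∃ m, w ∈ (stg m).1 := ⟨m, hm⟩
    classical
    obtain ⟨m, hm1, hm2⟩ : ∃ m, w ∈ (stg m).1 ∧ ∀ m' < m, w ∉ (stg m').1 :=
      ⟨Nat.find hex, Nat.find_spec hex, fun m' hm' => Nat.find_min hex hm'⟩
    have hm0 : m ≠ 0 := by
      rintro rfl
      exact absurd hm1 (by simp [stg])
    obtain ⟨m', rfl⟩ : ∃ m', m = m' + 1 := ⟨m - 1, by omega⟩
    have h1 := hm2 m' (by omega)
    rcases stage_cases m' with h2 | ⟨v, h2, h3, _, _⟩
    · rw [h2] at hm1; exact absurd hm1 h1
    · rw [h2] at hm1
      rcases List.mem_cons.1 hm1 with h5 | h5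
      · subst h5
        have h6 : ofNum m' = keyR w := (((fam_iff _ _).1 h3).2).symm
        have h7 : m' ≤ unum (keyR w) := by
          by_cases h8 : 1 ≤ m'
          · rw [← h6, unum_ofNum h8]
          · omega
        refine stg_fst_mono (by omega) (N := m' + 1) ?_
        rw [h2]; exact List.mem_cons_self
      · exact absurd h5 h1
  · intro h
    exact ⟨_, h⟩

end Pool.Agent.MP_b8a592_lc
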