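import Mathlib
import Pool.Agent.Lib.MP_b8a592_lc.NMach
import Pool.Agent.Lib.MP_b8a592_lc.Recur

/-!
The oracle separates as required.
-/

namespace Pool.Agent.MP_b8a592_lc

open Encodable

theorem jof_eq (j : ℕ) (x : List Bool) : jof (List.replicate j true ++ false :: x) = j := by
  unfold jof
  induction j with
  | zero => simp [List.findIdx_cons]
  | succ j ih =>
    rw [List.replicate_succ, List.cons_append, List.findIdx_cons, ih]
    simp

theorem xof_eq (j : ℕ) (x : List Bool) : xof (List.replicate j true ++ false :: x) = x := by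
  unfold xof
  rw [jof_eq, List.drop_append]
  simp

/-- polynomials are eventually below `2^n` -/
theorem exists_poly_le (c : ℕ) : ∃ n0, ∀ n, n0 ≤ n → n ^ c + c ≤ 2 ^ n := by
  have h1 := isLittleO_pow_const_const_pow_of_one_lt (R := ℝ) c (r := 2) (by norm_num)
  have h2 : ∀ᶠ n : ℕ in Filter.atTop, ‖((n : ℝ) ^ c)‖ ≤ 1 / 2 * ‖(2 : ℝ) ^ n‖ :=
    h1.def (by norm_num)
  obtain ⟨N, hN⟩ := Filter.eventually_atTop.1 h2
  refine ⟨max N (c + 1), fun n hn => ?_⟩
  have h3 := hN n ((le_max_left _ _).trans hn)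
  rw [Real.norm_of_nonneg (by positivity), Real.norm_of_nonneg (by positivity)] at h3
  have h4 : c + 1 ≤ n := (le_max_right _ _).trans hn
  have h5 : c < 2 ^ c := Nat.lt_two_pow_self
  have h6 : 2 * 2 ^ c ≤ 2 ^ n := by
    calc 2 * 2 ^ c = 2 ^ (c + 1) := by ring
      _ ≤ 2 ^ n := Nat.pow_le_pow_right (by norm_num) h4
  have h7 : 2 * n ^ c ≤ 2 ^ n := by
    have : (2 * n ^ c : ℝ) ≤ 2 ^ n := by linarith
    exact_mod_cast this
  omega

/-- polynomials are below `2^(n + κ)` for some `κ` -/
theorem exists_kappa (c : ℕ) : ∃ κ, ∀ n, n ^ c + c ≤ 2 ^ (n + κ) := by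
  obtain ⟨n0, h⟩ := exists_poly_le c
  refine ⟨n0 ^ c + c, fun n => ?_⟩
  by_cases hn : n0 ≤ n
  · exact (h n hn).trans (Nat.pow_le_pow_right (by norm_num) (by omega))
  · have h1 : n ^ c ≤ n0 ^ c := Nat.pow_le_pow_left (by omega) c
    have h2 : n0 ^ c + c < 2 ^ (n0 ^ c + c) := Nat.lt_two_pow_self
    have h3 : 2 ^ (n0 ^ c + c) ≤ 2 ^ (n + (n0 ^ c + c)) :=
      Nat.pow_le_pow_right (by norm_num) (by omega)
    omega

theorem decP_encode (M : Prog) : decP (encode M) = M := by
  unfold decP
  rw [encodek]; rfl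

open Classical in
theorem orc_lang (j : ℕ) (x : List Bool) :
    (∃ w ∈ Orc, Fam (List.replicate j true ++ false :: x) w) ↔
      xor (decide (j = 0)) (accB (mach (List.replicate j true ++ false :: x)) x
        (fun q => decide (q ∈ Orc)) (2 ^ (j + 1 + x.length))) = true := by
  rw [orc_spec (by simp)]
  unfold verdict
  rw [jof_eq, xof_eq]
  have : (List.replicate j true ++ false :: x).length = j + 1 + x.length := by
    simp; ring
  rw [this]

theorem P_subset_NL : PClass Orc ⊆ NLClass Orc := by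
  classical
  rintro L ⟨M, hM, c, hc⟩
  obtain ⟨κ, hκ⟩ := exists_kappa c
  have hL : L = {x : List Bool | ∃ w ∈ Orc,
      Fam (List.replicate (Nat.pair (encode M) κ + 1) true ++ false :: x) w} := by
    ext x
    obtain ⟨t, ht, C, h1, h2, h3⟩ := hc x
    have hmach : mach (List.replicate (Nat.pair (encode M) κ + 1) true ++ false :: x) = M := by
      unfold mach
      rw [jof_eq]
      rw [if_neg (by simp), Nat.add_sub_cancel, Nat.unpair_pair]
      exact decP_encode M
    show x ∈ L ↔ ∃ w ∈ Orc,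
      Fam (List.replicate (Nat.pair (encode M) κ + 1) true ++ false :: x) w
    rw [orc_lang, hmach, h3]
    have htime : t ≤ 2 ^ (Nat.pair (encode M) κ + 1 + 1 + x.length) := by
      refine ht.trans ((hκ _).trans (Nat.pow_le_pow_right (by norm_num) ?_))
      have := Nat.right_le_pair (encode M) κ
      omega
    rw [← accB_spec hM h1 h2 htime]
    simp
  rw [hL]
  exact nprog_mem _ _

theorem diag_not_P : {x : List Bool | ∃ w ∈ Orc,
    Fam (List.replicate 0 true ++ false :: x) w} ∉ PClass Orc := by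
  classical
  rintro ⟨M, hM, c, hc⟩
  obtain ⟨n0, hn0⟩ := exists_poly_le c
  obtain ⟨n, hn⟩ : ∃ n, n = Nat.pair (encode M) n0 := ⟨_, rfl⟩
  have hnn0 : n0 ≤ n := by rw [hn]; exact Nat.right_le_pair _ _
  obtain ⟨t, ht, C, h1, h2, h3⟩ := hc (List.replicate n true)
  have hmach : mach (List.replicate 0 true ++ false :: List.replicate n true) = M := by
    unfold mach
    rw [jof_eq, xof_eq]
    rw [if_pos (by simp), List.length_replicate, hn, Nat.unpair_pair]
    exact decP_encode M
  have h4 : (List.replicate n true ∈ {x : List Bool | ∃ w ∈ Orc,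
      Fam (List.replicate 0 true ++ false :: x) w}) ↔ ∃ w ∈ Orc,
      Fam (List.replicate 0 true ++ false :: List.replicate n true) w := Iff.rfl
  rw [h4, orc_lang, hmach] at h3
  have htime : t ≤ 2 ^ (0 + 1 + (List.replicate n true).length) := by
    rw [List.length_replicate] at ht ⊢
    exact ht.trans ((hn0 n hnn0).trans (Nat.pow_le_pow_right (by norm_num) (by omega)))
  rw [← accB_spec hM h1 h2 htime] at h3
  cases h5 : accB M (List.replicate n true) (fun q => decide (q ∈ Orc))
    (2 ^ (0 + 1 + (List.replicate n true).length)) <;> rw [h5] at h3 <;> simp at h3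

end Pool.Agent.MP_b8a592_lc
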